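import Mathlib
import Pool.Agent.H556.CP.Lem
import Pool.Agent.H556.FG.Seq

/-!
# Short sums of powers of two
-/

set_option autoImplicit false

namespace Pool.Agent.H556.SQ

open Filter Topology Pool.Agent.TH932.Abs Pool.Agent.TH932.Germs Pool.Agent.TH932.Chi
open Pool.Agent.TH796.AL Pool.Agent.TH551.SU Pool.Agent.Y724.Vj
open Pool.Agent.H556.CP

/-- sequences which are almost everywhere sums of a bounded number of powers of two with constant
integer coefficients -/
def Short (e : ℕ → ℕ) (x : ℕ → ℚ) : Prop :=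
  ∃ (ι : Type) (_ : Fintype ι) (K : ℕ) (c : ι → ℤ) (j : ι → ℕ → ℤ),
    (∀ i n, (j i n).natAbs ≤ K * e n) ∧
    ∀ᶠ n in (UU : Filter ℕ), x n = ∑ i, (c i : ℚ) * (2 : ℚ) ^ j i n

section
variable {e : ℕ → ℕ} {x y : ℕ → ℚ}

lemma Short.add (hx : Short e x) (hy : Short e y) : Short e (fun n => x n + y n) := by
  obtain ⟨ι, _, K, c, j, hj, hs⟩ := hx
  obtain ⟨ι', _, K', c', j', hj', hs'⟩ := hy
  refine ⟨ι ⊕ ι', inferInstance, K + K', Sum.elim c c', Sum.elim j j', ?_, ?_⟩
  · rintro (i | i) n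
    · exact (hj i n).trans (Nat.mul_le_mul_right _ (Nat.le_add_right _ _))
    · exact (hj' i n).trans (Nat.mul_le_mul_right _ (Nat.le_add_left _ _))
  · filter_upwards [hs, hs'] with n h1 h2
    rw [h1, h2, Fintype.sum_sum_type]
    rfl

lemma Short.mul (hx : Short e x) (hy : Short e y) : Short e (fun n => x n * y n) := by
  obtain ⟨ι, _, K, c, j, hj, hs⟩ := hx
  obtain ⟨ι', _, K', c', j', hj', hs'⟩ := hy
  refine ⟨ι × ι', inferInstance, K + K', fun p => c p.1 * c' p.2, fun p n => j p.1 n + j' p.2 n,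
    ?_, ?_⟩
  · rintro ⟨i, i'⟩ n
    refine (Int.natAbs_add_le _ _).trans ?_
    rw [add_mul]
    exact add_le_add (hj i n) (hj' i' n)
  · filter_upwards [hs, hs'] with n h1 h2
    rw [h1, h2, Finset.sum_mul_sum, Fintype.sum_prod_type]
    refine Finset.sum_congr rfl fun i _ => Finset.sum_congr rfl fun i' _ => ?_
    simp only []
    rw [zpow_add₀ (by norm_num)]
    push_cast
    ring

lemma Short.const (a : ℤ) : Short e (fun _ => (a : ℚ)) := by
  refine ⟨Unit, inferInstance, 0, fun _ => a, fun _ _ => 0, fun _ _ => by simp,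
    Eventually.of_forall fun n => ?_⟩
  simp

lemma Short.pow2 (f : ℕ → ℕ) (K : ℕ) (hf : ∀ n, f n ≤ K * e n) :
    Short e (fun n => (2 : ℚ) ^ f n) := by
  refine ⟨Unit, inferInstance, K, fun _ => 1, fun _ n => f n, fun _ n => ?_,
    Eventually.of_forall fun n => ?_⟩
  · simpa using hf n
  · simp

lemma Short.congr {x y : ℕ → ℚ} (hx : Short e x) (h : ∀ᶠ n in (UU : Filter ℕ), y n = x n) :
    Short e y := by
  obtain ⟨ι, _, K, c, j, hj, hs⟩ := hx
  refine ⟨ι, inferInstance, K, c, j, hj, ?_⟩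
  filter_upwards [hs, h] with n h1 h2
  rw [h2, h1]

lemma Short.smul (hx : Short e x) (a : ℤ) : Short e (fun n => (a : ℚ) * x n) :=
  (Short.const a).mul hx

end

/-- **an integer sequence which is algebraic over the powers of two is a short sum** -/
theorem alg_short {e : ℕ → ℕ} (het : Tendsto e atTop atTop) (x : ℕ → ℤ)
    (R : Polynomial (Polynomial ℤ)) (hR : R ≠ 0)
    (hRx : evG (gm fun n => (2 : ℚ) ^ e n) (gm fun n => (x n : ℚ)) R = 0) :
    ∃ N : ℤ, N ≠ 0 ∧ Short e (fun n => (N : ℚ) * x n) := by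
  classical
  have hL := RT.LT_tendsto het
  set L := RT.LT e with hLdef
  set b : Fin 1 → ℕ := fun _ => 2 with hb0
  have hb : ∀ v, (b v).Prime := fun _ => Nat.prime_two
  have hbi : Function.Injective b := fun i j _ => Subsingleton.elim i j
  set B0 := bs b hb hbi with hB0
  rw [evG_gm, ← gm_zero, gm_eq] at hRx
  obtain ⟨q, ρ, M, k, γ, hq, hk, hγ, hρ, happ⟩ := expand het (fun n => (x n : ℚ)) R hR hRx 1
  have hq0 : (0 : ℝ) < q := by exact_mod_cast (by omega : 0 < q)
  -- the units
  have hlog2 : 0 < Real.log 2 := Real.log_pos (by norm_num)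
  have hP2 : B0.P 0 = 2 := rfl
  have hE : IsCh B0 hL (gm fun n => (2 : ℚ) ^ (e n / q)) (Pi.single 0 (1 / (q * Real.log 2))) := by
    have h1 := isCh_prime (B0 := B0) (hL := hL) 0 (fun n => ((e n / q : ℕ) : ℤ))
      (1 / (q * Real.log 2)) (by
      intro δ hδ
      have h3 : ∀ᶠ n in atTop, 1 ≤ δ * L n :=
        (hL.const_mul_atTop hδ).eventually_ge_atTop _
      filter_upwards [ev_of_atTop h3] with n hn
      refine le_trans ?_ hn
      have h2 : L n = e n * Real.log 2 := rfl
      have h4 : 1 / (q * Real.log 2) * L n = (e n : ℝ) / q := by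
        rw [h2]
        field_simp
      rw [h4, Int.cast_natCast, abs_le]
      have h5 : ((e n / q : ℕ) : ℝ) ≤ (e n : ℝ) / q := Nat.cast_div_le
      have h6 : (e n : ℝ) / q < ((e n / q : ℕ) : ℝ) + 1 := by
        rw [div_lt_iff₀ hq0]
        have : e n < (e n / q + 1) * q := by
          have h7 := Nat.div_add_mod (e n) q
          have h8 := Nat.mod_lt (e n) (show 0 < q by omega)
          nlinarith
        exact_mod_cast this
      constructor <;> linarith)
    rw [hP2] at h1
    simp only [zpow_natCast] at h1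
    exact_mod_cast h1
  set E : GG := gm fun n => (2 : ℚ) ^ (e n / q) with hEdef
  set ui : Fin M → GG := fun i => E ^ k i with hui
  have huiC : ∀ i, IsCh B0 hL (ui i) ((k i : ℝ) • (Pi.single 0 (1 / (q * Real.log 2)) : Fin 1 → ℝ)) :=
    fun i => hE.zpow (k i)
  have hEk : ∀ i, E ^ k i = gm (fun n => (2 : ℚ) ^ (k i * ((e n / q : ℕ) : ℤ))) := by
    intro i
    have h1 : ∀ j : ℕ, E ^ j = gm (fun n => (2 : ℚ) ^ (((j : ℕ) : ℤ) * ((e n / q : ℕ) : ℤ))) := by
      intro j
      rw [hEdef, gm_pow]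
      congr 1
      funext n
      rw [← pow_mul, ← Nat.cast_mul, zpow_natCast, mul_comm]
    cases hki : k i with
    | ofNat j =>
      rw [Int.ofNat_eq_natCast, zpow_natCast, h1]
    | negSucc j =>
      rw [zpow_negSucc, h1, gm_inv]
      congr 1
      funext n
      rw [← zpow_neg]
      congr 1
  have huie : ∀ (S : Finset (Fin M)) (γ' : Fin M → ℝ), ∑ i ∈ S, algebraMap ℝ HR (γ' i) * rho (ui i) =
      gr (fun n => ∑ i ∈ S, γ' i * (2 : ℝ) ^ (k i * ((e n / q : ℕ) : ℤ))) := by
    intro S γ'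
    induction S using Finset.induction_on with
    | empty => simp only [Finset.sum_empty]; exact gr_zero.symm
    | insert i S hi ih =>
      rw [Finset.sum_insert hi, ih, hui]
      simp only []
      rw [hEk, rho_gm, cst_eq, gr_mul, gr_add]
      congr 1
      funext n
      rw [Finset.sum_insert hi]
      push_cast
      rfl
  have hrho : rho (gm fun n => (x n : ℚ)) - ∑ i, algebraMap ℝ HR (γ i) * rho (ui i) ∈ SR L 1 := by
    rw [huie, rho_gm, gr_sub, mem_SR]
    intro δ hδ
    filter_upwards [happ, L_nonneg hL] with n g1 g2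
    push_cast at g1 ⊢
    refine g1.trans (Real.exp_le_exp.2 ?_)
    nlinarith
  obtain ⟨N, c', hNc, hsum⟩ := comb B0 hL (gm fun n => (x n : ℚ)) (fun v => int_fin B0 hL x v)
    (int_sint B0 hL x) M ui _ huiC γ hγ (η := 1) (by norm_num) hrho
  have hsume : ∀ S : Finset (Fin M), ∑ i ∈ S, (c' i : GG) * ui i =
      gm (fun n => ∑ i ∈ S, (c' i : ℚ) * (2 : ℚ) ^ (k i * ((e n / q : ℕ) : ℤ))) := by
    intro S
    induction S using Finset.induction_on with
    | empty => simp only [Finset.sum_empty]; exact gm_zero.symm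
    | insert i S hi ih =>
      rw [Finset.sum_insert hi, ih, hui]
      simp only []
      have h4 : (c' i : GG) = gm (fun _ => (c' i : ℚ)) := rfl
      rw [hEk, h4, gm_mul, gm_add]
      congr 1
      funext n
      rw [Finset.sum_insert hi]
  refine ⟨N, ?_, Fin M, inferInstance, ∑ i, (k i).natAbs, c', fun i n => k i * ((e n / q : ℕ) : ℤ),
    ?_, ?_⟩
  · rintro rfl
    have hc' : c' ≠ 0 := by simpa using hNc
    apply hc'
    rw [Int.cast_zero, zero_mul, hsume, ← gm_zero, gm_eq] at hsum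
    have hxt : Tendsto (fun n => (2 : ℝ) ^ (e n / q)) atTop atTop :=
      (tendsto_pow_atTop_atTop_of_one_lt (by norm_num)).comp
        ((Nat.tendsto_div_const_atTop (by omega)).comp het)
    apply pow_indep hxt k hk c'
    filter_upwards [hsum] with n g1
    have g5 := congrArg (fun r : ℚ => (r : ℝ)) g1
    simp only [Rat.cast_sum, Rat.cast_mul, Rat.cast_zpow, Rat.cast_intCast, Rat.cast_ofNat,
      Rat.cast_zero] at g5
    rw [g5]
    refine Finset.sum_congr rfl fun i _ => ?_
    rw [← zpow_natCast, ← zpow_mul, mul_comm (k i)]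
  · intro i n
    rw [Int.natAbs_mul, Int.natAbs_natCast]
    exact Nat.mul_le_mul (Finset.single_le_sum (f := fun i => (k i).natAbs)
      (fun _ _ => Nat.zero_le _) (Finset.mem_univ i)) (Nat.div_le_self _ _)
  · rw [hsume] at hsum
    have h4 : (N : GG) = gm (fun _ => (N : ℚ)) := rfl
    rw [h4, gm_mul, gm_eq] at hsum
    exact hsum

open Nat (fermatNumber)

lemma dvd_of_dvd_mul {m : ℕ} {N A : ℤ} (hm : 2 ≤ m) (hN : N ≠ 0) (hNm : N.natAbs ≤ m)
    (h : (fermatNumber m : ℤ) ∣ N * A) : (fermatNumber m : ℤ) ∣ A := by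
  have h1 : IsCoprime (fermatNumber m : ℤ) N := by
    rw [Int.isCoprime_iff_nat_coprime, Int.natAbs_natCast]
    apply Nat.Coprime.symm
    apply Nat.coprime_of_dvd
    intro p hp h2 h3
    have h4 : p ≤ m := (Nat.le_of_dvd (Int.natAbs_pos.2 hN) h2).trans hNm
    have h5 := Pool.Agent.H556.FG.coprime_fermat hm hp h4
    rw [Nat.coprime_comm] at h5
    exact Nat.not_coprime_of_dvd_of_dvd hp.one_lt (dvd_refl p) h3 h5
  exact h1.dvd_of_dvd_mul_left h

/-- **short sums share small factors with Fermat numbers, or are divisible by them** -/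
theorem gcd_short {m : ℕ → ℕ} (hm : Tendsto m atTop atTop) {e : ℕ → ℕ}
    (he : ∀ n, e n ≤ 2 ^ m n) (A : ℕ → ℤ) {N : ℤ} (hN : N ≠ 0)
    (hA : Short e (fun n => (N : ℚ) * A n)) {δ : ℝ} (hδ : 0 < δ) :
    ∀ᶠ n in (UU : Filter ℕ), (fermatNumber (m n) : ℤ) ∣ A n ∨
      ((Int.gcd (fermatNumber (m n)) (A n) : ℕ) : ℝ) < (fermatNumber (m n) : ℝ) ^ δ := by
  classical
  obtain ⟨ι, _, K, c, j, hj, hs⟩ := hA
  set E := Fintype.equivFin ι with hE
  obtain ⟨ε, hε, m₁, hmain⟩ := Pool.Agent.H556.FG.main {2} (Fintype.card ι) K δ hδ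
  have hFt : Tendsto (fun n => (fermatNumber (m n) : ℝ)) atTop atTop := by
    have h1 : Tendsto (fun k => (fermatNumber k : ℝ)) atTop atTop :=
      tendsto_natCast_atTop_atTop.comp Nat.fermatNumber_strictMono.tendsto_atTop
    exact h1.comp hm
  have hFε : Tendsto (fun n => (fermatNumber (m n) : ℝ) ^ ε) atTop atTop :=
    (tendsto_rpow_atTop hε).comp hFt
  filter_upwards [hs, ev_of_atTop (hFε.eventually_ge_atTop (∑ i, |(c i : ℝ)|)),
    ev_of_atTop (hm.eventually_ge_atTop m₁), ev_of_atTop (hm.eventually_ge_atTop N.natAbs),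
    ev_of_atTop (hm.eventually_ge_atTop 2)] with n g1 g2 g3 g4 g5
  by_cases hd : (fermatNumber (m n) : ℤ) ∣ N * A n
  · exact Or.inl (dvd_of_dvd_mul g5 hN g4 hd)
  · right
    have hF0 : (0 : ℝ) ≤ (fermatNumber (m n) : ℝ) := Nat.cast_nonneg _
    have hsum : ∑ i : Fin (Fintype.card ι), (c (E.symm i) : ℚ) * (2 : ℚ) ^ j (E.symm i) n =
        ((N * A n : ℤ) : ℚ) := by
      rw [E.symm.sum_comp (fun i => (c i : ℚ) * (2 : ℚ) ^ j i n), ← g1]
      push_cast
      rfl
    have h2F : (2 : ℝ) ^ (K * e n) ≤ (fermatNumber (m n) : ℝ) ^ (K : ℝ) := by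
      rw [Real.rpow_natCast, mul_comm, pow_mul]
      apply pow_le_pow_left₀ (by positivity)
      calc (2 : ℝ) ^ e n ≤ 2 ^ (2 ^ m n) := pow_le_pow_right₀ (by norm_num) (he n)
        _ ≤ _ := by
          unfold fermatNumber
          push_cast
          linarith
    have hj' : ∀ i, ((2 : ℚ) ^ j i n) = (2 : ℚ) ^ (j i n).toNat / (2 : ℚ) ^ (-(j i n)).toNat := by
      intro i
      rw [← zpow_natCast, ← zpow_natCast, ← zpow_sub₀ (by norm_num)]
      congr 1
      omega
    have hht := fun i => height_le (2 ^ (j i n).toNat) (2 ^ (-(j i n)).toNat) (by positivity)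
      (by positivity) ((2 : ℚ) ^ j i n) (by
        rw [hj']
        push_cast
        rfl)
    refine hmain (m n) g3 (fun i => c (E.symm i)) (fun i => (2 : ℚ) ^ j (E.symm i) n) ?_ ?_ ?_ ?_ ?_
      (Int.gcd (fermatNumber (m n)) (A n)) ?_ ?_
    · intro i
      exact (Finset.single_le_sum (f := fun i => |(c i : ℝ)|) (fun _ _ => abs_nonneg _)
        (Finset.mem_univ _)).trans g2
    · intro i
      exact zpow_ne_zero _ (by norm_num)
    · intro i p hp hpd
      have hpp : Prime (p : ℤ) := Nat.prime_iff_prime_int.1 hp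
      have h3 : ∀ f : ℕ, (p : ℤ) ∣ 2 ^ f → p ∈ ({2} : Finset ℕ) := by
        intro f hf
        have h4 := hpp.dvd_of_dvd_pow hf
        have h5 : p ∣ 2 := by exact_mod_cast h4
        rw [Finset.mem_singleton]
        exact (Nat.prime_dvd_prime_iff_eq hp Nat.prime_two).1 h5
      rcases (hht (E.symm i)).2.2 p hp hpd with h4 | h4
      · exact h3 _ h4
      · exact h3 _ h4
    · intro i
      have hji := hj (E.symm i) n
      have h3 := hht (E.symm i)
      constructor
      · refine h3.1.trans (le_trans ?_ h2F)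
        push_cast
        rw [abs_of_pos (by positivity)]
        exact pow_le_pow_right₀ (by norm_num) (by omega)
      · refine h3.2.1.trans (le_trans ?_ h2F)
        push_cast
        rw [abs_of_pos (by positivity)]
        exact pow_le_pow_right₀ (by norm_num) (by omega)
    · rw [hsum, Rat.num_intCast]
      exact hd
    · exact_mod_cast Int.gcd_dvd_left (fermatNumber (m n) : ℤ) (A n)
    · rw [hsum, Rat.num_intCast]
      exact Dvd.dvd.mul_left (Int.gcd_dvd_right (fermatNumber (m n) : ℤ) (A n)) _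

end Pool.Agent.H556.SQ
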