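import Mathlib

/-!
# Bases of the functions of bounded degree on an affine quadric
-/

set_option autoImplicit false

namespace Pool.Agent.H556.SQ

variable {F A : Type*} [Field F] [CommRing A] [Algebra F A]

/-- the functions of degree at most `N` -/
def DG (F : Type*) {A : Type*} [Field F] [CommRing A] [Algebra F A] (x y z : A) (N : ℕ) :
    Submodule F A :=
  Submodule.span F {w | ∃ i j k : ℕ, i + j + k ≤ N ∧ w = x ^ i * y ^ j * z ^ k}

lemma mem_DG {x y z : A} {N i j k : ℕ} (h : i + j + k ≤ N) :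
    x ^ i * y ^ j * z ^ k ∈ DG F x y z N := Submodule.subset_span ⟨i, j, k, h, rfl⟩

lemma DG_mul {x y z : A} {N M : ℕ} {u v : A} (hu : u ∈ DG F x y z N) (hv : v ∈ DG F x y z M) :
    u * v ∈ DG F x y z (N + M) := by
  have h1 : DG F x y z N * DG F x y z M ≤ DG F x y z (N + M) := by
    unfold DG
    rw [Submodule.span_mul_span]
    apply Submodule.span_mono
    rintro _ ⟨_, ⟨i, j, k, h1, rfl⟩, _, ⟨i', j', k', h2, rfl⟩, rfl⟩
    exact ⟨i + i', j + j', k + k', by omega, by ring⟩
  exact h1 (Submodule.mul_mem_mul hu hv)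

lemma DG_mono {x y z : A} {N M : ℕ} (h : N ≤ M) : DG F x y z N ≤ DG F x y z M := by
  apply Submodule.span_mono
  rintro w ⟨i, j, k, h1, rfl⟩
  exact ⟨i, j, k, h1.trans h, rfl⟩

lemma DG_pow {x y z : A} {u : A} (hu : u ∈ DG F x y z 1) (i : ℕ) : u ^ i ∈ DG F x y z i := by
  induction i with
  | zero =>
    have := mem_DG (F := F) (x := x) (y := y) (z := z) (N := 0) (i := 0) (j := 0) (k := 0) (by simp)
    simpa using this
  | succ i ih =>
    rw [pow_succ]
    exact DG_mul ih hu

lemma DG_le {x y z x' y' z' : A} (hx : x' ∈ DG F x y z 1) (hy : y' ∈ DG F x y z 1)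
    (hz : z' ∈ DG F x y z 1) (N : ℕ) : DG F x' y' z' N ≤ DG F x y z N := by
  unfold DG
  rw [Submodule.span_le]
  rintro _ ⟨i, j, k, h, rfl⟩
  exact DG_mono h (DG_mul (DG_mul (DG_pow hx i) (DG_pow hy j)) (DG_pow hz k))

lemma x_mem {x y z : A} : x ∈ DG F x y z 1 := by
  have := mem_DG (F := F) (x := x) (y := y) (z := z) (N := 1) (i := 1) (j := 0) (k := 0) (by simp)
  simpa using this

lemma y_mem {x y z : A} : y ∈ DG F x y z 1 := by
  have := mem_DG (F := F) (x := x) (y := y) (z := z) (N := 1) (i := 0) (j := 1) (k := 0) (by simp)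
  simpa using this

lemma z_mem {x y z : A} : z ∈ DG F x y z 1 := by
  have := mem_DG (F := F) (x := x) (y := y) (z := z) (N := 1) (i := 0) (j := 0) (k := 1) (by simp)
  simpa using this

lemma one_mem {x y z : A} : (1 : A) ∈ DG F x y z 1 := by
  have := mem_DG (F := F) (x := x) (y := y) (z := z) (N := 1) (i := 0) (j := 0) (k := 0) (by simp)
  simpa using this

/-- the pairs `(d, i)` with `i ≤ d ≤ N` -/
def KT (N : ℕ) : Finset (Σ _ : ℕ, ℕ) := (Finset.range (N + 1)).sigma fun d => Finset.range (d + 1)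

lemma mem_KT {N d i : ℕ} : (⟨d, i⟩ : Σ _ : ℕ, ℕ) ∈ KT N ↔ i ≤ d ∧ d ≤ N := by
  unfold KT
  rw [Finset.mem_sigma, Finset.mem_range, Finset.mem_range]
  simp only []
  omega

/-- the normal forms -/
def fam (x y z : A) (M : ℕ) : (KT (M + 1) ⊕ KT M) → A :=
  Sum.elim (fun p => x ^ p.1.2 * y ^ (p.1.1 - p.1.2)) (fun p => x ^ p.1.2 * y ^ (p.1.1 - p.1.2) * z)

theorem span_fam {x y z : A} {c0 l a b c : F}
    (h : z ^ 2 = c0 • (1 : A) + l • x + a • x ^ 2 + b • (x * y) + c • y ^ 2) (M : ℕ) : Submodule.span F (Set.range (fam x y z M)) = DG F x y z (M + 1) := by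
  apply le_antisymm
  · rw [Submodule.span_le]
    rintro _ ⟨p | p, rfl⟩
    · obtain ⟨⟨d, i⟩, hp⟩ := p
      have hp' := mem_KT.1 hp
      have := mem_DG (F := F) (x := x) (y := y) (z := z) (N := M + 1) (i := i) (j := d - i) (k := 0)
        (by omega)
      simpa [fam] using this
    · obtain ⟨⟨d, i⟩, hp⟩ := p
      have hp' := mem_KT.1 hp
      have := mem_DG (F := F) (x := x) (y := y) (z := z) (N := M + 1) (i := i) (j := d - i) (k := 1)
        (by omega)
      simpa [fam] using this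
  · set W := Submodule.span F (Set.range (fam x y z M)) with hW
    have key : ∀ k i j : ℕ, i + j + k ≤ M + 1 → x ^ i * y ^ j * z ^ k ∈ W := by
      intro k
      induction k using Nat.strong_induction_on with
      | _ k ih =>
        intro i j hk
        rcases k with _ | _ | k
        · refine Submodule.subset_span ⟨Sum.inl ⟨⟨i + j, i⟩, mem_KT.2 (by omega)⟩, ?_⟩
          simp [fam]
        · refine Submodule.subset_span ⟨Sum.inr ⟨⟨i + j, i⟩, mem_KT.2 (by omega)⟩, ?_⟩
          simp [fam]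
        · have h1 : x ^ i * y ^ j * z ^ (k + 2) = c0 • (x ^ i * y ^ j * z ^ k) +
              l • (x ^ (i + 1) * y ^ j * z ^ k) + a • (x ^ (i + 2) * y ^ j * z ^ k) + b • (x ^ (i + 1) * y ^ (j + 1) * z ^ k) +
              c • (x ^ i * y ^ (j + 2) * z ^ k) := by
            simp only [Algebra.smul_def] at h ⊢
            rw [pow_add z k 2, h]
            ring
          rw [h1]
          refine Submodule.add_mem _ (Submodule.add_mem _ (Submodule.add_mem _
            (Submodule.add_mem _ ?_ ?_) ?_) ?_) ?_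
          · exact Submodule.smul_mem _ _ (ih k (by omega) i j (by omega))
          · exact Submodule.smul_mem _ _ (ih k (by omega) (i + 1) j (by omega))
          · exact Submodule.smul_mem _ _ (ih k (by omega) (i + 2) j (by omega))
          · exact Submodule.smul_mem _ _ (ih k (by omega) (i + 1) (j + 1) (by omega))
          · exact Submodule.smul_mem _ _ (ih k (by omega) i (j + 2) (by omega))
    unfold DG
    rw [Submodule.span_le]
    rintro _ ⟨i, j, k, h1, rfl⟩
    exact key k i j h1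

/-! ### the sums -/

lemma sum_KT (N : ℕ) (f : ℕ → ℕ → ℝ) : ∑ p : KT N, f p.1.1 p.1.2 =
    ∑ d ∈ Finset.range (N + 1), ∑ i ∈ Finset.range (d + 1), f d i := by
  rw [Finset.sum_coe_sort (KT N) (fun p => f p.1 p.2)]
  unfold KT
  rw [Finset.sum_sigma]

lemma sum_id (n : ℕ) : ∑ i ∈ Finset.range (n + 1), (i : ℝ) = n * (n + 1) / 2 := by
  induction n with
  | zero => simp
  | succ n ih => rw [Finset.sum_range_succ, ih]; push_cast; ring

lemma sum_one (N : ℕ) (a b ρ : ℝ) :
    ∑ p : KT N, (a * (p.1.2 : ℕ) + b * ((p.1.1 - p.1.2 : ℕ) : ℝ) + ρ) =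
    (a + b) * (N * (N + 1) * (N + 2) / 6) + ρ * ((N + 1) * (N + 2) / 2) := by
  rw [sum_KT N (fun d i => a * (i : ℕ) + b * ((d - i : ℕ) : ℝ) + ρ)]
  have h1 : ∀ d : ℕ, ∑ i ∈ Finset.range (d + 1), (a * (i : ℕ) + b * ((d - i : ℕ) : ℝ) + ρ) =
      (a + b) * (d * (d + 1) / 2) + ρ * (d + 1) := by
    intro d
    rw [Finset.sum_add_distrib, Finset.sum_add_distrib, ← Finset.mul_sum, ← Finset.mul_sum, sum_id,
      Finset.sum_const, Finset.card_range, nsmul_eq_mul]
    have h2 : ∑ i ∈ Finset.range (d + 1), ((d - i : ℕ) : ℝ) = d * (d + 1) / 2 := by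
      rw [← sum_id, ← Finset.sum_range_reflect]
      refine Finset.sum_congr rfl fun i hi => ?_
      have := Finset.mem_range.1 hi
      congr 1
      omega
    rw [h2]
    push_cast
    ring
  rw [Finset.sum_congr rfl fun d _ => h1 d]
  induction N with
  | zero => simp
  | succ N ih => rw [Finset.sum_range_succ, ih]; push_cast; ring

end Pool.Agent.H556.SQ
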