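import Mathlib
import Pool.Agent.H556.CP.Lem
import Pool.Agent.H556.SQ.Quad

/-!
# Small linear forms on the quadric `O ^ 2 + d E ^ 2 = Z ^ 2 + 1`
-/

set_option autoImplicit false

namespace Pool.Agent.H556.SQ

open Filter Topology Pool.Agent.TH932.Abs Pool.Agent.TH932.Germs Pool.Agent.TH932.Chi
open Pool.Agent.TH796.AL
open Pool.Agent.H556.CP (evG)

/-- the polynomial of the coefficients of one half of a family -/
noncomputable def pol (N : ℕ) (c : KT N → ℤ) : Polynomial (Polynomial ℤ) :=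
  ∑ p : KT N, Polynomial.C (Polynomial.C (c p) * Polynomial.X ^ (p.1.1 - p.1.2)) *
    Polynomial.X ^ p.1.2

lemma pol_ev (N : ℕ) (c : KT N → ℤ) (Z W : GG) :
    evG Z W (pol N c) = ∑ p : KT N, (c p : GG) * (W ^ p.1.2 * Z ^ (p.1.1 - p.1.2)) := by
  unfold pol evG
  rw [Polynomial.eval₂_finsetSum]
  refine Finset.sum_congr rfl fun p _ => ?_
  rw [Polynomial.eval₂_mul, Polynomial.eval₂_C, Polynomial.eval₂_pow, Polynomial.eval₂_X,
    Polynomial.coe_eval₂RingHom, Polynomial.eval₂_mul, Polynomial.eval₂_C, Polynomial.eval₂_pow,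
    Polynomial.eval₂_X, eq_intCast]
  ring

lemma pol_zero (N : ℕ) (c : KT N → ℤ) (h : pol N c = 0) : ∀ p, c p = 0 := by
  rintro ⟨⟨d0, i0⟩, hp0⟩
  have hp0' := mem_KT.1 hp0
  have h1 := congrArg (fun r => Polynomial.coeff (Polynomial.coeff r i0) (d0 - i0)) h
  simp only [pol, Polynomial.finsetSum_coeff, Polynomial.coeff_C_mul_X_pow,
    Polynomial.coeff_zero] at h1
  rw [Finset.sum_eq_single (⟨⟨d0, i0⟩, hp0⟩ : KT N)] at h1
  · rw [if_pos rfl, Polynomial.coeff_C_mul_X_pow, if_pos rfl] at h1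
    exact h1
  · rintro ⟨⟨d, i⟩, hp⟩ _ hne
    have hp' := mem_KT.1 hp
    simp only []
    by_cases hi : i0 = i
    · subst hi
      rw [if_pos rfl, Polynomial.coeff_C_mul_X_pow, if_neg]
      intro h2
      apply hne
      have h3 : d = d0 := by omega
      subst h3
      rfl
    · rw [if_neg hi, Polynomial.coeff_zero]
  · intro h
    exact absurd (Finset.mem_univ _) h

/-- `d A ^ 2 = (Z ^ 2 - W ^ 2 - 2 σ W) B ^ 2` has only the zero solution -/
lemma sq_zero {d : ℕ} (hd : 0 < d) (σ : ℤ) (P Q : Polynomial (Polynomial ℤ))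
    (h : (d : Polynomial (Polynomial ℤ)) * P ^ 2 =
      (Polynomial.C (Polynomial.X ^ 2) - Polynomial.X ^ 2 -
        Polynomial.C (Polynomial.C (2 * σ)) * Polynomial.X) * Q ^ 2) :
    P = 0 ∧ Q = 0 := by
  by_cases hQ : Q = 0
  · rw [hQ] at h
    refine ⟨?_, hQ⟩
    have h1 : (d : Polynomial (Polynomial ℤ)) * P ^ 2 = 0 := by rw [h]; ring
    have h2 : (d : Polynomial (Polynomial ℤ)) ≠ 0 := by exact_mod_cast hd.ne'
    exact pow_eq_zero_iff (by norm_num) |>.1 ((mul_eq_zero.1 h1).resolve_left h2)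
  · exfalso
    have h1 := congrArg Polynomial.leadingCoeff h
    rw [Polynomial.leadingCoeff_mul, Polynomial.leadingCoeff_mul, Polynomial.leadingCoeff_pow,
      Polynomial.leadingCoeff_pow] at h1
    have h2 : (Polynomial.C (Polynomial.X ^ 2 : Polynomial ℤ) - Polynomial.X ^ 2 -
        Polynomial.C (Polynomial.C (2 * σ)) * Polynomial.X :
        Polynomial (Polynomial ℤ)).leadingCoeff = -1 := by
      have e1 : (Polynomial.C (Polynomial.X ^ 2 : Polynomial ℤ) - Polynomial.X ^ 2 -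
        Polynomial.C (Polynomial.C (2 * σ)) * Polynomial.X : Polynomial (Polynomial ℤ)) =
        (Polynomial.C (-Polynomial.C (2 * σ)) * Polynomial.X + Polynomial.C (Polynomial.X ^ 2)) +
          -Polynomial.X ^ 2 := by
        rw [Polynomial.C_neg]
        ring
      rw [e1, Polynomial.leadingCoeff_add_of_degree_lt, Polynomial.leadingCoeff_neg,
        Polynomial.leadingCoeff_X_pow]
      rw [Polynomial.degree_neg, Polynomial.degree_X_pow]
      exact lt_of_le_of_lt Polynomial.degree_linear_le (by norm_num)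
    have h2' : (d : Polynomial (Polynomial ℤ)).leadingCoeff = (d : Polynomial ℤ) := by
      rw [← Polynomial.C_eq_natCast, Polynomial.leadingCoeff_C]
    rw [h2, h2'] at h1
    have hl : Q.leadingCoeff ≠ 0 := Polynomial.leadingCoeff_ne_zero.2 hQ
    have h3 := congrArg Polynomial.leadingCoeff h1
    rw [Polynomial.leadingCoeff_mul, Polynomial.leadingCoeff_mul, Polynomial.leadingCoeff_pow,
      Polynomial.leadingCoeff_pow, Polynomial.leadingCoeff_neg, Polynomial.leadingCoeff_one,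
      ← Polynomial.C_eq_natCast, Polynomial.leadingCoeff_C] at h3
    have h4 : Q.leadingCoeff.leadingCoeff ≠ 0 := Polynomial.leadingCoeff_ne_zero.2 hl
    have h5 : 0 < Q.leadingCoeff.leadingCoeff ^ 2 := by positivity
    have h6 := mul_nonneg (Int.natCast_nonneg d) (sq_nonneg P.leadingCoeff.leadingCoeff)
    linarith

/-- independence of the normal forms -/
lemma indep {O E Z W : GG} {d : ℕ} (hd : 0 < d) (h : O ^ 2 + (d : GG) * E ^ 2 = Z ^ 2 + 1)
    {σ : ℤ} (hσ : σ ^ 2 = 1) (hW : O = W + (σ : GG))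
    (hno : ∀ R : Polynomial (Polynomial ℤ), R ≠ 0 → evG Z W R ≠ 0) (M : ℕ)
    (c : KT (M + 1) ⊕ KT M → ℤ) (hc : ∑ p, (c p : GG) * fam W Z E M p = 0) : ∀ p, c p = 0 := by
  classical
  rw [Fintype.sum_sum_type] at hc
  have h1 : ∑ p : KT (M + 1), (c (Sum.inl p) : GG) * fam W Z E M (Sum.inl p) =
      evG Z W (pol (M + 1) fun p => c (Sum.inl p)) := by
    rw [pol_ev]
    rfl
  have h2 : ∑ p : KT M, (c (Sum.inr p) : GG) * fam W Z E M (Sum.inr p) =
      evG Z W (pol M fun p => c (Sum.inr p)) * E := by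
    rw [pol_ev, Finset.sum_mul]
    refine Finset.sum_congr rfl fun p _ => ?_
    simp only [fam, Sum.elim_inr]
    ring
  rw [h1, h2] at hc
  set P := pol (M + 1) fun p => c (Sum.inl p) with hP
  set Q := pol M fun p => c (Sum.inr p) with hQ
  have hev : ∀ R S : Polynomial (Polynomial ℤ), evG Z W (R * S) = evG Z W R * evG Z W S := fun R S => by
    unfold evG; rw [Polynomial.eval₂_mul]
  have hevs : ∀ R S : Polynomial (Polynomial ℤ), evG Z W (R - S) = evG Z W R - evG Z W S := fun R S => by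
    unfold evG; rw [Polynomial.eval₂_sub]
  have h3 : (d : Polynomial (Polynomial ℤ)) * P ^ 2 =
      (Polynomial.C (Polynomial.X ^ 2) - Polynomial.X ^ 2 -
        Polynomial.C (Polynomial.C (2 * σ)) * Polynomial.X) * Q ^ 2 := by
    rw [← sub_eq_zero]
    by_contra hne
    apply hno _ hne
    rw [hevs, pow_two P, pow_two Q, hev, hev, hev, hev, hevs, hevs, hev]
    have h4 : evG Z W (Polynomial.C (Polynomial.X ^ 2)) = Z ^ 2 := by
      unfold evG
      rw [Polynomial.eval₂_C, Polynomial.coe_eval₂RingHom]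
      simp
    have h5 : evG Z W (Polynomial.X ^ 2) = W ^ 2 := by
      unfold evG
      simp
    have h5' : evG Z W Polynomial.X = W := by
      unfold evG
      simp
    have h5'' : evG Z W (Polynomial.C (Polynomial.C (2 * σ))) = 2 * (σ : GG) := by
      unfold evG
      rw [Polynomial.eval₂_C, Polynomial.coe_eval₂RingHom, Polynomial.eval₂_C, eq_intCast]
      push_cast
      ring
    have h5d : evG Z W (d : Polynomial (Polynomial ℤ)) = (d : GG) := by
      unfold evG
      simp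
    rw [h4, h5, h5', h5'', h5d]
    have h6 : evG Z W P = -(evG Z W Q * E) := eq_neg_of_add_eq_zero_left hc
    rw [h6]
    have hσ' : (σ : GG) ^ 2 = 1 := by exact_mod_cast congrArg (fun t : ℤ => (t : GG)) hσ
    have h7 : (d : GG) * E ^ 2 = Z ^ 2 - W ^ 2 - 2 * σ * W := by
      rw [hW] at h
      linear_combination h - hσ'
    linear_combination (evG Z W Q) ^ 2 * h7
  obtain ⟨hP0, hQ0⟩ := sq_zero hd σ P Q h3
  rintro (p | p)
  · exact pol_zero _ _ hP0 p
  · exact pol_zero _ _ hQ0 p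

/-- **the transcendental case** -/
theorem trans {s : ℕ} (B0 : Base s) {L : ℕ → ℝ} (hL : Tendsto L atTop atTop) {O E Z W : GG}
    {d : ℕ} (hd : 0 < d) (h : O ^ 2 + (d : GG) * E ^ 2 = Z ^ 2 + 1)
    {σ : ℤ} (hσ : σ ^ 2 = 1) (hW : O = W + (σ : GG))
    (τ θ : Fin s → ℝ) {θ' : ℝ} (hτ : ∑ v, τ v = 1) (hθ : ∑ v, θ v = θ')
    (hEv : ∀ v, E ∈ Sv B0 L (some v) (θ v)) (hWv : ∀ v, W ∈ Sv B0 L (some v) (2 * θ v))
    (hZ : ∀ v, Z ∈ Sv B0 L (some v) (τ v)) (hEs : Sint B0 L E) (hWs : Sint B0 L W)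
    (hZs : Sint B0 L Z) {lam mu : ℝ} (hlam : IsAlgebraic ℚ lam) (hmu : IsAlgebraic ℚ mu)
    (hlm : mu ^ 2 + d * lam ^ 2 = 1)
    {κ : ℝ} (hκ : 1 / 2 < κ + θ') (hκ1 : κ ≤ 1)
    (hη : algebraMap ℝ HR lam * rho O + algebraMap ℝ HR mu * rho E ∈ SR L (-(1 - κ)))
    (hξ : algebraMap ℝ HR mu * rho O - algebraMap ℝ HR (d * lam) * rho E + rho Z ∈ SR L (-1))
    (hξi : (algebraMap ℝ HR mu * rho O - algebraMap ℝ HR (d * lam) * rho E + rho Z)⁻¹ ∈ SR L 1)
    (hξ0' : algebraMap ℝ HR mu * rho O - algebraMap ℝ HR (d * lam) * rho E + rho Z ≠ 0)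
    (hno : ∀ R : Polynomial (Polynomial ℤ), R ≠ 0 → evG Z W R ≠ 0) : False := by
  classical
  -- the number field
  set F : IntermediateField ℚ ℝ := IntermediateField.adjoin ℚ {lam, mu} with hF
  have hfin : FiniteDimensional ℚ F := by
    apply IntermediateField.finiteDimensional_adjoin
    rintro x (rfl | rfl)
    · exact hlam.isIntegral
    · exact hmu.isIntegral
  have hlF : lam ∈ F := IntermediateField.subset_adjoin ℚ _ (by simp)
  have hmF : mu ∈ F := IntermediateField.subset_adjoin ℚ _ (by simp)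
  set l : F := ⟨lam, hlF⟩ with hl
  set k : F := ⟨mu, hmF⟩ with hk
  have hlk : k ^ 2 + (d : F) * l ^ 2 = 1 := Subtype.ext (by
    push_cast
    exact hlm)
  have hd0 : (d : F) ≠ 0 := by exact_mod_cast hd.ne'
  have hdH : (d : HR) = algebraMap F HR (d : F) := by rw [map_natCast]
  have hdH0 : (d : HR) ≠ 0 := by
    rw [hdH, Ne, FaithfulSMul.algebraMap_eq_zero_iff]
    exact hd0
  have hal : ∀ f : F, ∀ w : HR, f • w = algebraMap ℝ HR (f : ℝ) * w := fun f w => rfl
  set o := rho O with ho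
  set e := rho E with he
  set z := rho Z with hz
  set w := rho W with hw
  have how : o = w + (σ : HR) := by
    rw [ho, hw, hW, map_add, map_intCast]
  have hσ' : (σ : HR) ^ 2 = 1 := by exact_mod_cast congrArg (fun t : ℤ => (t : HR)) hσ
  have hoez : o ^ 2 + (d : HR) * e ^ 2 = z ^ 2 + 1 := by
    have := congrArg rho h
    rw [map_add, map_add, map_mul, map_pow, map_pow, map_pow, map_one, map_natCast] at this
    exact this
  set ξ : HR := k • o - ((d : F) * l) • e + z with hξd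
  set ξ' : HR := k • o - ((d : F) * l) • e - z with hξd'
  set η : HR := l • o + k • e with hηd
  -- the relations
  have hsm : ∀ (f : F) (x : HR), f • x = algebraMap F HR f * x := fun f x => Algebra.smul_def f x
  have hlk' : algebraMap F HR k ^ 2 + (d : HR) * algebraMap F HR l ^ 2 = 1 := by
    rw [hdH, ← map_pow, ← map_pow, ← map_mul, ← map_add, hlk, map_one]
  have hξξ : ξ * ξ' = 1 - (d : HR) * η ^ 2 := by
    rw [hξd, hξd', hηd]
    simp only [hsm, map_mul, map_natCast]
    linear_combination (o ^ 2 + (d : HR) * e ^ 2) * hlk' + hoez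
  have hrel : η ^ 2 = (1 / (d : F)) • (1 : HR) + (0 : F) • ξ + (0 : F) • ξ ^ 2 +
      (-(1 / (d : F))) • (ξ * ξ') + (0 : F) • ξ' ^ 2 := by
    rw [hξξ]
    simp only [hsm, map_div₀, map_one, map_zero, map_neg, map_natCast]
    field_simp
    ring
  have hrel2 : e ^ 2 = (0 : F) • (1 : HR) + (-(2 * (σ : F) / (d : F))) • w +
      (-(1 / (d : F))) • w ^ 2 + (0 : F) • (w * z) + (1 / (d : F)) • z ^ 2 := by
    have h1 : (d : HR) * e ^ 2 = z ^ 2 - w ^ 2 - 2 * (σ : HR) * w := by
      rw [how] at hoez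
      linear_combination hoez - hσ'
    have h2 : e ^ 2 = (z ^ 2 - w ^ 2 - 2 * (σ : HR) * w) / (d : HR) := by
      rw [← h1]
      field_simp
    rw [h2]
    simp only [hsm, map_div₀, map_one, map_zero, map_neg, map_natCast, map_mul, map_ofNat,
      map_intCast]
    ring
  -- the spaces
  have hDG1 : ∀ N, DG F ξ ξ' η N ≤ DG F w z e N := by
    have ho : o ∈ DG F w z e 1 := by
      have h1 : (σ : HR) = (σ : F) • (1 : HR) := by rw [hsm, map_intCast, mul_one]
      rw [how, h1]
      exact Submodule.add_mem _ x_mem (Submodule.smul_mem _ _ one_mem)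
    apply DG_le
    · exact Submodule.add_mem _ (Submodule.sub_mem _ (Submodule.smul_mem _ _ ho)
        (Submodule.smul_mem _ _ z_mem)) y_mem
    · exact Submodule.sub_mem _ (Submodule.sub_mem _ (Submodule.smul_mem _ _ ho)
        (Submodule.smul_mem _ _ z_mem)) y_mem
    · exact Submodule.add_mem _ (Submodule.smul_mem _ _ ho) (Submodule.smul_mem _ _ z_mem)
  have hDG2 : ∀ N, DG F w z e N ≤ DG F ξ ξ' η N := by
    have h2F : algebraMap F HR 2 = 2 := map_ofNat _ 2
    have h20 : (2 : HR) ≠ 0 := by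
      rw [← h2F, Ne, FaithfulSMul.algebraMap_eq_zero_iff]
      exact two_ne_zero
    have e1 : o = (k / 2) • ξ + (k / 2) • ξ' + ((d : F) * l) • η := by
      rw [hξd, hξd', hηd]
      simp only [hsm, map_div₀, map_mul, map_one, map_natCast, h2F]
      field_simp
      linear_combination (-2 * o) * hlk'
    have e2 : z = (1 / 2 : F) • ξ - (1 / 2 : F) • ξ' := by
      rw [hξd, hξd']
      simp only [hsm, map_div₀, map_one, h2F]
      field_simp
      ring
    have e3 : e = k • η - (l / 2) • ξ - (l / 2) • ξ' := by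
      rw [hξd, hξd', hηd]
      simp only [hsm, map_div₀, map_mul, map_one, map_natCast, h2F]
      field_simp
      linear_combination (-2 * e) * hlk'
    have e4 : w = o - (σ : F) • (1 : HR) := by
      rw [how, hsm, map_intCast]
      ring
    apply DG_le
    · rw [e4, e1]
      exact Submodule.sub_mem _ (Submodule.add_mem _ (Submodule.add_mem _
        (Submodule.smul_mem _ _ x_mem) (Submodule.smul_mem _ _ y_mem))
        (Submodule.smul_mem _ _ z_mem)) (Submodule.smul_mem _ _ one_mem)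
    · rw [e2]
      exact Submodule.sub_mem _ (Submodule.smul_mem _ _ x_mem) (Submodule.smul_mem _ _ y_mem)
    · rw [e3]
      exact Submodule.sub_mem _ (Submodule.sub_mem _ (Submodule.smul_mem _ _ z_mem)
        (Submodule.smul_mem _ _ x_mem)) (Submodule.smul_mem _ _ y_mem)
  have hspan : ∀ M, Submodule.span F (Set.range (fam ξ ξ' η M)) =
      Submodule.span F (Set.range (fam w z e M)) := fun M => by
    rw [span_fam hrel, span_fam hrel2]
    exact le_antisymm (hDG1 _) (hDG2 _)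
  -- sizes
  have hone : (1 : HR) ∈ SR L 0 := by
    have := SR_cst hL (1 : ℝ)
    rwa [map_one] at this
  have hpow : ∀ {x : HR} {w : ℝ}, x ∈ SR L w → ∀ k : ℕ, x ^ k ∈ SR L (w * k) := by
    intro x w hx k
    induction k with
    | zero => rw [pow_zero, Nat.cast_zero, mul_zero]; exact hone
    | succ k ih =>
      rw [pow_succ]
      push_cast
      rw [mul_add, mul_one]
      exact SR_mul hL ih hx
  have hpowS : ∀ {x : GG}, Sint B0 L x → ∀ k : ℕ, Sint B0 L (x ^ k) := by
    intro x hx k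
    induction k with
    | zero => rw [pow_zero]; exact Sint.alg hL 1
    | succ k ih => rw [pow_succ]; exact Sint.mul hL ih hx
  have hdl : (((d : F) * l : F) : ℝ) = d * lam := by push_cast; rfl
  have hξ1 : ξ ∈ SR L (-1) := by
    rw [hξd, hal, hal, hdl]
    exact hξ
  have hξ1i : ξ⁻¹ ∈ SR L 1 := by
    rw [hξd, hal, hal, hdl]
    exact hξi
  have hη1 : η ∈ SR L (-(1 - κ)) := hη
  have hξ0 : ξ ≠ 0 := by
    rw [hξd, hal, hal, hdl]
    exact hξ0'
  have hξ'1 : ξ' ∈ SR L (2 * κ - 1) := by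
    have h1 : ξ' = ξ⁻¹ * (1 + algebraMap ℝ HR (-(d : ℝ)) * η ^ 2) := by
      have h2 : 1 + algebraMap ℝ HR (-(d : ℝ)) * η ^ 2 = 1 - (d : HR) * η ^ 2 := by
        rw [map_neg, map_natCast]; ring
      rw [h2, ← hξξ, ← mul_assoc, inv_mul_cancel₀ hξ0, one_mul]
    have h3 : η ^ 2 ∈ SR L (-(2 * (1 - κ))) := by
      have := hpow hη1 2
      have h4 : -(1 - κ) * ((2 : ℕ) : ℝ) = -(2 * (1 - κ)) := by push_cast; ring
      rwa [h4] at this
    have h5 : 1 + algebraMap ℝ HR (-(d : ℝ)) * η ^ 2 ∈ SR L (-(2 * (1 - κ))) := by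
      refine SR_add hL (SR_anti hL (by linarith) hone) ?_
      have := SR_mul hL (SR_cst hL (-(d : ℝ))) h3
      rwa [zero_add] at this
    rw [h1]
    have h6 := SR_mul hL hξ1i h5
    have h7 : (1 : ℝ) + -(2 * (1 - κ)) = 2 * κ - 1 := by ring
    rwa [h7] at h6
  -- the parameters
  have hpos : 0 < 2 * θ' + 2 * κ - 1 := by linarith
  obtain ⟨M, hM⟩ : ∃ M : ℕ, 3 / 2 < (2 * θ' + 2 * κ - 1) * (2 * M + 3) := by
    obtain ⟨M, hM⟩ := exists_nat_gt (3 / (2 * θ' + 2 * κ - 1))
    refine ⟨M, ?_⟩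
    rw [div_lt_iff₀ hpos] at hM
    have h2 : (0 : ℝ) ≤ M := Nat.cast_nonneg _
    nlinarith
  set ι := KT (M + 1) ⊕ KT M with hι
  set EE : ι ≃ Fin (Fintype.card ι) := Fintype.equivFin ι with hEE
  set xx : ι → GG := fam W Z E M with hxx
  set gx : ι → HR := fam ξ ξ' η M with hgx
  have hindZ := indep hd h hσ hW hno M
  have hindF : LinearIndependent F (fun x : ι => rho (xx x)) := RT.indep_rho F xx hindZ
  have hmap : (fun p : ι => rho (xx p)) = fam w z e M := by
    funext p
    rcases p with p | p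
    · simp only [hxx, fam, Sum.elim_inl, map_mul, map_pow, hw, hz]
    · simp only [hxx, fam, Sum.elim_inr, map_mul, map_pow, hw, hz, he]
  have hspan' : Submodule.span F (Set.range gx) =
      Submodule.span F (Set.range fun x : ι => rho (xx x)) := by
    rw [hmap]
    exact hspan M
  have hindg : LinearIndependent F gx := by
    rw [linearIndependent_iff_card_eq_finrank_span] at hindF ⊢
    rw [hindF]
    unfold Set.finrank
    rw [hspan']
  have hspan1 : ∀ p : ι, gx p ∈ Submodule.span F (Set.range fun x : ι => rho (xx x)) := fun p => by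
    rw [← hspan']
    exact Submodule.subset_span ⟨p, rfl⟩
  have key := fixa_thm s B0 L hL F hfin (Fintype.card ι)
    (fun i => xx (EE.symm i)) (fun i => gx (EE.symm i))
    (fun v i => Sum.elim
      (fun p : KT (M + 1) => (p.1.2 : ℝ) * (2 * θ v) + ((p.1.1 - p.1.2 : ℕ) : ℝ) * τ v)
      (fun p : KT M => (p.1.2 : ℝ) * (2 * θ v) + ((p.1.1 - p.1.2 : ℕ) : ℝ) * τ v + θ v)
      (EE.symm i))
    (fun i => Sum.elim
      (fun p : KT (M + 1) => -((p.1.2 : ℕ) : ℝ) + (2 * κ - 1) * ((p.1.1 - p.1.2 : ℕ) : ℝ))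
      (fun p : KT M => -((p.1.2 : ℕ) : ℝ) + (2 * κ - 1) * ((p.1.1 - p.1.2 : ℕ) : ℝ) +
        -(1 - κ)) (EE.symm i))
    (by
      intro f hf i
      have h1 := hindZ (fun x => f (EE x)) (by
        rw [← EE.symm.sum_comp]
        simpa using hf) (EE.symm i)
      simpa using h1)
    (hindg.comp EE.symm EE.symm.injective)
    (by
      intro i
      refine Submodule.span_mono ?_ (hspan1 (EE.symm i))
      rintro _ ⟨x, rfl⟩
      refine ⟨EE x, ?_⟩
      simp only [Equiv.symm_apply_apply])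
    (by
      intro v i
      have hF2 := filt_v (B := B0) hL (some v)
      have h1 : ∀ k l : ℕ, W ^ k * Z ^ l ∈ Sv B0 L (some v) ((k : ℝ) * (2 * θ v) + (l : ℝ) * τ v) := by
        intro k l
        have h2 : W ^ k ∈ Sv B0 L (some v) ((k : ℝ) * (2 * θ v)) := by
          have := hF2.pow_mem (hWv v) k
          rwa [mul_comm] at this
        have h3 : Z ^ l ∈ Sv B0 L (some v) ((l : ℝ) * τ v) := by
          have := hF2.pow_mem (hZ v) l
          rwa [mul_comm] at this
        exact hF2.mul_mem h2 h3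
      rcases EE.symm i with p | p
      · exact h1 _ _
      · exact hF2.mul_mem (h1 p.1.2 (p.1.1 - p.1.2)) (hEv v))
    (by
      intro i
      have h1 : ∀ k l : ℕ, ξ ^ k * ξ' ^ l ∈ SR L (-((k : ℕ) : ℝ) + (2 * κ - 1) * (l : ℝ)) := by
        intro k l
        have h2 := hpow hξ1 k
        rw [neg_one_mul] at h2
        exact SR_mul hL h2 (hpow hξ'1 l)
      rcases EE.symm i with p | p
      · exact h1 _ _
      · exact SR_mul hL (h1 p.1.2 (p.1.1 - p.1.2)) hη1)
    (by
      intro i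
      rcases EE.symm i with p | p
      · exact Sint.mul hL (hpowS hWs _) (hpowS hZs _)
      · exact Sint.mul hL (Sint.mul hL (hpowS hWs _) (hpowS hZs _)) hEs)
  -- the sums
  rw [Finset.sum_comm, ← Finset.sum_add_distrib] at key
  have h1 : ∀ i : Fin (Fintype.card ι),
      (∑ v, Sum.elim
        (fun p : KT (M + 1) => (p.1.2 : ℝ) * (2 * θ v) + ((p.1.1 - p.1.2 : ℕ) : ℝ) * τ v)
        (fun p : KT M => (p.1.2 : ℝ) * (2 * θ v) + ((p.1.1 - p.1.2 : ℕ) : ℝ) * τ v + θ v)
        (EE.symm i)) +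
      Sum.elim
      (fun p : KT (M + 1) => -((p.1.2 : ℕ) : ℝ) + (2 * κ - 1) * ((p.1.1 - p.1.2 : ℕ) : ℝ))
      (fun p : KT M => -((p.1.2 : ℕ) : ℝ) + (2 * κ - 1) * ((p.1.1 - p.1.2 : ℕ) : ℝ) +
        -(1 - κ)) (EE.symm i) =
      (fun q : ι => Sum.elim
        (fun p : KT (M + 1) => (2 * θ' - 1) * (p.1.2 : ℕ) +
          2 * κ * ((p.1.1 - p.1.2 : ℕ) : ℝ) + 0)
        (fun p : KT M => (2 * θ' - 1) * (p.1.2 : ℕ) + 2 * κ * ((p.1.1 - p.1.2 : ℕ) : ℝ) +
          (θ' - (1 - κ))) q)
        (EE.symm i) := by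
    intro i
    rcases EE.symm i with p | p
    · simp only [Sum.elim_inl]
      rw [Finset.sum_add_distrib, ← Finset.mul_sum, ← Finset.mul_sum, ← Finset.mul_sum, hτ, hθ]
      ring
    · simp only [Sum.elim_inr]
      rw [Finset.sum_add_distrib, Finset.sum_add_distrib, ← Finset.mul_sum, ← Finset.mul_sum,
        ← Finset.mul_sum, hτ, hθ]
      ring
  rw [Finset.sum_congr rfl fun i _ => h1 i, EE.symm.sum_comp, Fintype.sum_sum_type] at key
  simp only [Sum.elim_inl, Sum.elim_inr] at key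
  rw [sum_one, sum_one] at key
  push_cast at key
  have h2 : (0 : ℝ) ≤ M := Nat.cast_nonneg _
  have h3 : 0 < ((M : ℝ) + 1) * (M + 2) / 6 *
      ((2 * θ' + 2 * κ - 1) * (2 * M + 3) + 3 * (θ' + κ - 1)) := by
    apply mul_pos (by positivity)
    linarith
  nlinarith

end Pool.Agent.H556.SQ
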