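import Mathlib
import Pool.Agent.H556.SQ.Trans
import Pool.Agent.H556.SQ.Short

/-!
# Small linear forms at the representations of Fermat numbers by `X ^ 2 + Y ^ 2` and `X ^ 2 + 2 Y ^ 2`
-/

set_option autoImplicit false

namespace Pool.Agent.H556.SQ

open Filter Topology Pool.Agent.TH932.Abs Pool.Agent.TH932.Germs Pool.Agent.TH932.Chi
open Pool.Agent.TH796.AL Pool.Agent.TH551.SU Pool.Agent.Y724.Vj
open Pool.Agent.H556.CP
open Nat (fermatNumber)

/-- the product of two representations -/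
lemma final {d F O E O0 E0 : ℤ} (hd : d = 1 ∨ d = 2) (hF : 0 < F) (h : O ^ 2 + d * E ^ 2 = F)
    (h0 : O0 ^ 2 + d * E0 ^ 2 = F) (hdvd : F ∣ O * E0 + O0 * E) :
    O ^ 2 = O0 ^ 2 ∨ (d = 1 ∧ E ^ 2 = O0 ^ 2) := by
  obtain ⟨k, hk⟩ := hdvd
  have h1 : (O * O0 - d * E * E0) ^ 2 + d * (O * E0 + O0 * E) ^ 2 = F ^ 2 := by
    rw [pow_two F]
    nth_rewrite 1 [← h]
    rw [← h0]
    ring
  by_cases hk0 : k = 0
  · left
    rw [hk0, mul_zero] at hk
    rw [hk] at h1
    have h2 : O * F = O0 * (O * O0 - d * E * E0) := by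
      rw [← h0]
      linear_combination d * E0 * hk
    have h3 : F ^ 2 * O ^ 2 = F ^ 2 * O0 ^ 2 := by
      have h4 : (O * O0 - d * E * E0) ^ 2 = F ^ 2 := by linarith
      calc F ^ 2 * O ^ 2 = (O * F) ^ 2 := by ring
        _ = O0 ^ 2 * (O * O0 - d * E * E0) ^ 2 := by rw [h2]; ring
        _ = _ := by rw [h4]; ring
    exact mul_left_cancel₀ (by positivity) h3
  · right
    rw [hk] at h1
    have hk2 : 1 ≤ k ^ 2 := by
      have : 0 < k ^ 2 := by positivity
      omega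
    have h2 := sq_nonneg (O * O0 - d * E * E0)
    have hF2 : 0 < F ^ 2 := by positivity
    have hd1 : d = 1 := by
      rcases hd with rfl | rfl
      · rfl
      · exfalso
        nlinarith
    subst hd1
    refine ⟨rfl, ?_⟩
    have h4 : (O * O0 - 1 * E * E0) ^ 2 = 0 := by nlinarith
    have h5 : O * O0 - E * E0 = 0 := by
      have := pow_eq_zero_iff (two_ne_zero) |>.1 h4
      linarith
    have hk1 : k ^ 2 = 1 := by
      rw [h4] at h1
      have : F ^ 2 * k ^ 2 = F ^ 2 * 1 := by linarith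
      exact mul_left_cancel₀ hF2.ne' this
    have h6 : E * F = O0 * (F * k) := by
      rw [← hk]
      nth_rewrite 1 [← h0]
      linear_combination -E0 * h5
    have h7 : F ^ 2 * E ^ 2 = F ^ 2 * O0 ^ 2 := by
      calc F ^ 2 * E ^ 2 = (E * F) ^ 2 := by ring
        _ = F ^ 2 * O0 ^ 2 * k ^ 2 := by rw [h6]; ring
        _ = _ := by rw [hk1]; ring
    exact mul_left_cancel₀ hF2.ne' h7

/-- the power of two dividing `O - σ` -/
lemma two_div {d : ℤ} {O E σ : ℤ} {e v : ℕ} (hσ : σ ^ 2 = 1) (h4 : 4 ∣ O - σ)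
    (h : O ^ 2 + d * E ^ 2 = 2 ^ (2 * e) + 1) (hv : (2 : ℤ) ^ v ∣ E) (hve : v ≤ e) :
    (2 : ℤ) ^ (2 * v) ∣ 2 * (O - σ) := by
  obtain ⟨k, hk⟩ := h4
  have hO : O = σ + 4 * k := by linarith
  have h1 : (2 : ℤ) ^ (2 * v) ∣ 2 ^ (2 * e) - d * E ^ 2 := by
    apply dvd_sub
    · exact pow_dvd_pow _ (by omega)
    · apply Dvd.dvd.mul_left
      rw [mul_comm, pow_mul]
      exact pow_dvd_pow_of_dvd hv 2
  have h2 : (2 : ℤ) ^ (2 * e) - d * E ^ 2 = (2 * (O - σ)) * (σ + 2 * k) := by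
    rw [hO] at h ⊢
    linear_combination -h + hσ
  rw [h2] at h1
  refine IsCoprime.dvd_of_dvd_mul_right ?_ h1
  apply IsCoprime.pow_left
  exact ⟨-(σ * k), σ, by linear_combination hσ⟩

/-- algebraic relations -/
lemma exists_rel {Z W E : GG} {d : ℕ} (hd : 0 < d) (σ : ℤ)
    (h : (W + (σ : GG)) ^ 2 + (d : GG) * E ^ 2 = Z ^ 2 + 1)
    {R : Polynomial (Polynomial ℤ)} (hR : R ≠ 0) (hW : evG Z W R = 0) :
    ∃ R' : Polynomial (Polynomial ℤ), R' ≠ 0 ∧ evG Z E R' = 0 := by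
  let _ : Algebra (Polynomial ℤ) GG := (Polynomial.eval₂RingHom (Int.castRingHom GG) Z).toAlgebra
  have hW' : IsAlgebraic (Polynomial ℤ) W := ⟨R, hR, hW⟩
  have hZ' : IsAlgebraic (Polynomial ℤ) Z := by
    have h1 : Z = algebraMap (Polynomial ℤ) GG Polynomial.X := by
      change Z = Polynomial.eval₂RingHom (Int.castRingHom GG) Z Polynomial.X
      simp
    rw [h1]
    exact isAlgebraic_algebraMap _
  have hint : ∀ c : ℤ, IsAlgebraic (Polynomial ℤ) (c : GG) := by
    intro c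
    have h1 : (c : GG) = algebraMap (Polynomial ℤ) GG (Polynomial.C c) := by
      change (c : GG) = Polynomial.eval₂RingHom (Int.castRingHom GG) Z (Polynomial.C c)
      simp
    rw [h1]
    exact isAlgebraic_algebraMap _
  have hdE : IsAlgebraic (Polynomial ℤ) (((d : ℤ) : GG) * E) := by
    have h1 : (((d : ℤ) : GG) * E) ^ 2 = ((d : ℤ) : GG) *
        (Z ^ 2 + ((1 : ℤ) : GG) - (W + (σ : GG)) ^ 2) := by
      push_cast
      linear_combination (d : GG) * h
    have h2 : IsAlgebraic (Polynomial ℤ) ((((d : ℤ) : GG) * E) ^ 2) := by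
      rw [h1]
      exact (hint _).mul (((hZ'.pow 2).add (hint 1)).sub ((hW'.add (hint σ)).pow 2))
    exact h2.of_pow (by norm_num)
  obtain ⟨S, hS, hSE⟩ := hdE
  refine ⟨S.comp (Polynomial.C (Polynomial.C (d : ℤ)) * Polynomial.X), ?_, ?_⟩
  · intro h0
    apply hS
    rw [Polynomial.comp_eq_zero_iff] at h0
    rcases h0 with h0 | ⟨-, h0⟩
    · exact h0
    · exfalso
      have h2 := congrArg (fun p => Polynomial.coeff p 1) h0
      simp only [Polynomial.coeff_C_mul, Polynomial.coeff_X_one, mul_one, Polynomial.coeff_C,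
        one_ne_zero, if_false] at h2
      rw [Polynomial.C_eq_zero] at h2
      omega
  · unfold evG
    rw [Polynomial.eval₂_comp]
    have h1 : Polynomial.eval₂ (Polynomial.eval₂RingHom (Int.castRingHom GG) Z) E
        (Polynomial.C (Polynomial.C (d : ℤ)) * Polynomial.X) = ((d : ℤ) : GG) * E := by
      rw [Polynomial.eval₂_mul, Polynomial.eval₂_C, Polynomial.eval₂_X,
        Polynomial.coe_eval₂RingHom, Polynomial.eval₂_C, eq_intCast]
    rw [h1]
    exact hSE

/-- the algebraic case -/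
lemma alg_case {d : ℕ} (hd : d = 1 ∨ d = 2) {m e : ℕ → ℕ} (hm : Tendsto m atTop atTop)
    (het : Tendsto e atTop atTop) (hem : ∀ n, e n ≤ 2 ^ m n) (O E O0 E0 : ℕ → ℤ)
    (hOE : ∀ n, O n ^ 2 + d * E n ^ 2 = fermatNumber (m n))
    (hOE0 : ∀ n, O0 n ^ 2 + d * E0 n ^ 2 = fermatNumber (m n))
    (hZ : ∀ n, (2 : ℤ) ^ (2 * e n) + 1 = fermatNumber (m n))
    (hO0 : Short e (fun n => (O0 n : ℚ))) (hE0 : Short e (fun n => (E0 n : ℚ)))
    (hne : ∀ n, O n ^ 2 ≠ O0 n ^ 2 ∧ (d = 1 → E n ^ 2 ≠ O0 n ^ 2)) (σ : ℤ)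
    {R : Polynomial (Polynomial ℤ)} (hR : R ≠ 0)
    (hW : evG (gm fun n => (2 : ℚ) ^ e n) (gm fun n => ((O n - σ : ℤ) : ℚ)) R = 0) : False := by
  classical
  have hd0 : 0 < d := by rcases hd with rfl | rfl <;> norm_num
  have hrel : ((gm fun n => ((O n - σ : ℤ) : ℚ)) + (σ : GG)) ^ 2 +
      (d : GG) * (gm fun n => (E n : ℚ)) ^ 2 = (gm fun n => (2 : ℚ) ^ e n) ^ 2 + 1 := by
    have h1 : (σ : GG) = gm (fun _ => (σ : ℚ)) := rfl
    have h2 : (d : GG) = gm (fun _ => (d : ℚ)) := rfl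
    rw [h1, h2, gm_add, gm_pow, gm_pow, gm_pow, gm_mul, gm_add, ← gm_one, gm_add]
    congr 1
    funext n
    have h3 := hOE n
    rw [← hZ n] at h3
    have h4 := congrArg (fun t : ℤ => (t : ℚ)) h3
    push_cast at h4 ⊢
    rw [pow_mul, ← pow_mul, mul_comm 2 (e n), pow_mul] at h4
    rw [← h4]
    ring
  obtain ⟨R', hR', hE'⟩ := exists_rel hd0 σ hrel hR hW
  obtain ⟨N, hN, hNW⟩ := alg_short het (fun n => O n - σ) R hR hW
  obtain ⟨N', hN', hNE⟩ := alg_short het E R' hR' hE'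
  have hNO : Short e (fun n => (N : ℚ) * (O n : ℚ)) := by
    refine (hNW.add (Short.const (N * σ))).congr (Eventually.of_forall fun n => ?_)
    push_cast
    ring
  -- the two combinations
  have hA : ∀ s : ℤ, Short e (fun n => ((N * N' : ℤ) : ℚ) *
      ((O n * E0 n + s * (O0 n * E n) : ℤ) : ℚ)) := by
    intro s
    refine (((hNO.mul hE0).smul N').add ((hO0.mul hNE).smul (N * s))).congr
      (Eventually.of_forall fun n => ?_)
    push_cast
    ring
  have hFt : Tendsto (fun n => (fermatNumber (m n) : ℝ)) atTop atTop := by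
    have h1 : Tendsto (fun k => (fermatNumber k : ℝ)) atTop atTop :=
      tendsto_natCast_atTop_atTop.comp Nat.fermatNumber_strictMono.tendsto_atTop
    exact h1.comp hm
  obtain ⟨n, g1, g2⟩ := ((gcd_short hm hem (fun n => O n * E0 n + 1 * (O0 n * E n))
    (mul_ne_zero hN hN') (hA 1) (δ := 1 / 3) (by norm_num)).and
    (gcd_short hm hem (fun n => O n * E0 n + (-1) * (O0 n * E n))
    (mul_ne_zero hN hN') (hA (-1)) (δ := 1 / 3) (by norm_num))).exists
  have hF3 := Nat.three_le_fermatNumber (m n)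
  set F := fermatNumber (m n) with hF
  have hFpos : (0 : ℤ) < F := by exact_mod_cast (by omega : 0 < F)
  have hdz : (d : ℤ) = 1 ∨ (d : ℤ) = 2 := by
    rcases hd with rfl | rfl
    · left; rfl
    · right; rfl
  by_cases hp : (F : ℤ) ∣ O n * E0 n + 1 * (O0 n * E n)
  · rcases final (O := O n) (E := E n) (O0 := O0 n) (E0 := E0 n) hdz hFpos (hOE n) (hOE0 n) (by rwa [one_mul] at hp) with h1 | ⟨h1, h2⟩
    · exact (hne n).1 h1
    · exact (hne n).2 (by exact_mod_cast h1) h2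
  by_cases hq : (F : ℤ) ∣ O n * E0 n + (-1) * (O0 n * E n)
  · rcases final (O := O n) (E := -E n) (O0 := O0 n) (E0 := E0 n) hdz hFpos (by rw [neg_sq]; exact hOE n) (hOE0 n)
      (by
        have : O n * E0 n + O0 n * -E n = O n * E0 n + (-1) * (O0 n * E n) := by ring
        rwa [this]) with h1 | ⟨h1, h2⟩
    · exact (hne n).1 h1
    · rw [neg_sq] at h2
      exact (hne n).2 (by exact_mod_cast h1) h2
  have g1' := g1.resolve_left hp
  have g2' := g2.resolve_left hq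
  have hdv : (F : ℤ) ∣ (O n * E0 n + 1 * (O0 n * E n)) * (O n * E0 n + (-1) * (O0 n * E n)) := by
    refine ⟨E0 n ^ 2 - E n ^ 2, ?_⟩
    have h1 := hOE n
    have h2 := hOE0 n
    have h3 : O n ^ 2 = F - d * E n ^ 2 := by linarith
    have h4 : O0 n ^ 2 = F - d * E0 n ^ 2 := by linarith
    calc _ = O n ^ 2 * E0 n ^ 2 - O0 n ^ 2 * E n ^ 2 := by ring
      _ = _ := by rw [h3, h4]; ring
  have h5 : F ∣ Int.gcd F (O n * E0 n + 1 * (O0 n * E n)) *
      Int.gcd F (O n * E0 n + (-1) * (O0 n * E n)) := by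
    rw [Int.gcd_def, Int.gcd_def, Int.natAbs_natCast]
    refine dvd_trans ?_ (Nat.gcd_mul_right_dvd_mul_gcd F _ _)
    rw [← Int.natAbs_mul]
    apply Nat.dvd_gcd (dvd_refl F)
    exact Int.natCast_dvd.1 hdv
  have h6 : 0 < Int.gcd F (O n * E0 n + 1 * (O0 n * E n)) *
      Int.gcd F (O n * E0 n + (-1) * (O0 n * E n)) := by
    apply Nat.mul_pos <;>
    · apply Int.gcd_pos_of_ne_zero_left
      exact hFpos.ne'
  have h7 : (F : ℝ) ≤ (Int.gcd F (O n * E0 n + 1 * (O0 n * E n)) : ℕ) *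
      (Int.gcd F (O n * E0 n + (-1) * (O0 n * E n)) : ℕ) := by
    exact_mod_cast Nat.le_of_dvd h6 h5
  have hF1 : (1 : ℝ) < F := by exact_mod_cast (by omega : 1 < F)
  have h8 : ((Int.gcd F (O n * E0 n + 1 * (O0 n * E n)) : ℕ) : ℝ) *
      (Int.gcd F (O n * E0 n + (-1) * (O0 n * E n)) : ℕ) ≤ (F : ℝ) ^ (1 / 3 : ℝ) * (F : ℝ) ^ (1 / 3 : ℝ) :=
    mul_le_mul g1'.le g2'.le (Nat.cast_nonneg _) (by positivity)
  rw [← Real.rpow_add (by linarith)] at h8
  have h9 : (F : ℝ) ^ ((1 : ℝ) / 3 + 1 / 3) < (F : ℝ) ^ (1 : ℝ) :=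
    Real.rpow_lt_rpow_of_exponent_lt hF1 (by norm_num)
  rw [Real.rpow_one] at h9
  linarith

/-- **the theorem for sequences** -/
theorem core {d : ℕ} (hd : d = 1 ∨ d = 2) {m e : ℕ → ℕ} (hm : Tendsto m atTop atTop)
    (het : Tendsto e atTop atTop) (hem : ∀ n, e n ≤ 2 ^ m n) (O E O0 E0 : ℕ → ℤ)
    (hodd : ∀ n, Odd (O n)) (hEne : ∀ n, E n ≠ 0)
    (hOE : ∀ n, O n ^ 2 + d * E n ^ 2 = fermatNumber (m n))
    (hOE0 : ∀ n, O0 n ^ 2 + d * E0 n ^ 2 = fermatNumber (m n))
    (hZ : ∀ n, (2 : ℤ) ^ (2 * e n) + 1 = fermatNumber (m n))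
    (hO0 : Short e (fun n => (O0 n : ℚ))) (hE0 : Short e (fun n => (E0 n : ℚ)))
    (hne : ∀ n, O n ^ 2 ≠ O0 n ^ 2 ∧ (d = 1 → E n ^ 2 ≠ O0 n ^ 2))
    {lam mu : ℝ} (hlam : IsAlgebraic ℚ lam) (hmu : IsAlgebraic ℚ mu)
    (hlm : mu ^ 2 + d * lam ^ 2 = 1) {ε C : ℝ} (hε : 0 < ε) (hε' : ε ≤ 1 / 4) (hC : 0 < C)
    (v : ℕ → ℕ) (hv : ∀ n, (2 : ℤ) ^ v n ∣ E n)
    (hsign : ∀ n, 0 ≤ mu * O n - d * lam * E n)
    (hsmall : ∀ n, |lam * O n + mu * E n| ≤
      C * (2 ^ v n * (fermatNumber (m n) : ℝ) ^ (1 / 4 - ε))) : False := by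
  classical
  have hd0 : 0 < d := by rcases hd with rfl | rfl <;> norm_num
  have hL := RT.LT_tendsto het
  set L := RT.LT e with hLdef
  set b : Fin 1 → ℕ := fun _ => 2 with hb0
  have hb : ∀ v, (b v).Prime := fun _ => Nat.prime_two
  have hbi : Function.Injective b := fun i j _ => Subsingleton.elim i j
  set B0 := bs b hb hbi with hB0
  have hlog2 : 0 < Real.log 2 := Real.log_pos (by norm_num)
  have hP2 : B0.P 0 = 2 := rfl
  have hexp : ∀ n, Real.exp (L n) = 2 ^ e n := fun n => RT.exp_LT e n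
  have hLe : ∀ n, L n = e n * Real.log 2 := fun n => rfl
  have hev1 : ∀ᶠ n in (UU : Filter ℕ), 1 ≤ L n := ev_of_atTop (hL.eventually_ge_atTop 1)
  -- sizes
  have hdE : ∀ n, (d : ℤ) * E n ^ 2 ≤ 2 ^ (2 * e n) := by
    intro n
    have h1 := hOE n
    rw [← hZ n] at h1
    have h2 : 1 ≤ O n ^ 2 := by
      have h3 : O n ≠ 0 := by
        intro h3
        have := hodd n
        rw [h3] at this
        exact absurd this (by decide)
      have : 0 < O n ^ 2 := by positivity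
      omega
    linarith
  have hEle : ∀ n, |E n| ≤ 2 ^ e n := by
    intro n
    have h1 := hdE n
    have h2 : (1 : ℤ) ≤ d := by exact_mod_cast hd0
    have h3 : E n ^ 2 ≤ (2 ^ e n) ^ 2 := by
      rw [← pow_mul, mul_comm (e n) 2]
      nlinarith [sq_nonneg (E n)]
    exact abs_le_of_sq_le_sq h3 (by positivity)
  have hOle : ∀ n, |O n| ≤ 2 * 2 ^ e n := by
    intro n
    have h1 := hOE n
    rw [← hZ n] at h1
    have h2 : (0 : ℤ) ≤ d * E n ^ 2 := by positivity
    have h3 : (1 : ℤ) ≤ 2 ^ (2 * e n) := one_le_pow₀ (by norm_num)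
    have h4 : O n ^ 2 ≤ (2 * 2 ^ e n) ^ 2 := by
      rw [mul_pow, ← pow_mul, mul_comm (e n) 2]
      linarith
    exact abs_le_of_sq_le_sq h4 (by positivity)
  have hve : ∀ n, v n ≤ e n := by
    intro n
    have h1 := Int.le_of_dvd (abs_pos.2 (hEne n)) ((dvd_abs _ _).2 (hv n))
    have h2 : (2 : ℤ) ^ v n ≤ 2 ^ e n := h1.trans (hEle n)
    exact (pow_le_pow_iff_right₀ (by norm_num : (1 : ℤ) < 2)).1 h2
  -- the 2-adic exponent
  obtain ⟨θ, -, hθ⟩ := exists_lim hL (fun n => (v n : ℝ) * Real.log 2) 1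
    (Eventually.of_forall fun n => by
      rw [abs_of_nonneg (by positivity), one_mul, hLe]
      have : (v n : ℝ) ≤ e n := by exact_mod_cast hve n
      nlinarith)
  have hθv : ∀ δ : ℝ, 0 < δ → ∀ᶠ n in (UU : Filter ℕ), |(v n : ℝ) * Real.log 2 - θ * L n| ≤ δ * L n := by
    intro δ hδ
    filter_upwards [hθ.eventually (Metric.ball_mem_nhds θ hδ), hev1] with n h1 h2
    rw [Real.dist_eq] at h1
    have h3 : (v n : ℝ) * Real.log 2 - θ * L n = ((v n : ℝ) * Real.log 2 / L n - θ) * L n := by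
      have : L n ≠ 0 := by linarith
      field_simp
    rw [h3, abs_mul, abs_of_pos (by linarith : 0 < L n)]
    exact mul_le_mul_of_nonneg_right h1.le (by linarith)
  have hθ0 : 0 ≤ θ := by
    refine ge_of_tendsto hθ ?_
    filter_upwards [hev1] with n h1
    positivity
  -- the sign
  obtain ⟨σ, hσ, hσO⟩ : ∃ σ : ℤ, σ ^ 2 = 1 ∧ ∀ᶠ n in (UU : Filter ℕ), 4 ∣ O n - σ := by
    have h1 : ∀ᶠ n in (UU : Filter ℕ), (4 ∣ O n - 1) ∨ (4 ∣ O n - (-1)) :=
      Eventually.of_forall fun n => by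
        have := hodd n
        rw [Int.odd_iff] at this
        omega
    rcases Ultrafilter.eventually_or.1 h1 with h2 | h2
    · exact ⟨1, by norm_num, h2⟩
    · exact ⟨-1, by norm_num, h2⟩
  have h2W : ∀ᶠ n in (UU : Filter ℕ), (2 : ℤ) ^ (2 * v n) ∣ 2 * (O n - σ) := by
    filter_upwards [hσO] with n h1
    refine two_div (d := d) hσ h1 ?_ (hv n) (hve n)
    rw [hZ n]
    exact hOE n
  -- the germs
  set Zg : GG := gm fun n => (2 : ℚ) ^ e n with hZg
  set Og : GG := gm fun n => (O n : ℚ) with hOg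
  set Eg : GG := gm fun n => (E n : ℚ) with hEg
  set Wg : GG := gm fun n => ((O n - σ : ℤ) : ℚ) with hWg
  have hrelg : Og ^ 2 + (d : GG) * Eg ^ 2 = Zg ^ 2 + 1 := by
    have h2 : (d : GG) = gm (fun _ => (d : ℚ)) := rfl
    rw [hOg, hEg, hZg, h2, gm_pow, gm_pow, gm_pow, gm_mul, gm_add, ← gm_one, gm_add]
    congr 1
    funext n
    have h3 := hOE n
    rw [← hZ n] at h3
    have h4 := congrArg (fun t : ℤ => (t : ℚ)) h3
    push_cast at h4 ⊢
    rw [h4, ← pow_mul, mul_comm 2 (e n)]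
  have hOW : Og = Wg + (σ : GG) := by
    have h1 : (σ : GG) = gm (fun _ => (σ : ℚ)) := rfl
    rw [hOg, hWg, h1, gm_add]
    congr 1
    funext n
    push_cast
    ring
  have hT : IsCh B0 hL Zg (Pi.single 0 (1 / Real.log 2)) := by
    have h1 := isCh_prime (B0 := B0) (hL := hL) 0 (fun n => (e n : ℤ)) (1 / Real.log 2) (by
      intro δ hδ
      filter_upwards [hev1] with n hn
      have h3 : ((e n : ℤ) : ℝ) - 1 / Real.log 2 * L n = 0 := by
        rw [hLe]
        push_cast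
        field_simp
        ring
      rw [h3, abs_zero]
      nlinarith)
    rw [hP2] at h1
    simp only [zpow_natCast] at h1
    rw [hZg]
    push_cast at h1
    exact h1
  -- the 2-adic sizes
  have hsv : ∀ (x : ℕ → ℤ) (k : ℕ → ℤ) (t : ℝ), (∀ δ : ℝ, 0 < δ → ∀ᶠ n in (UU : Filter ℕ),
      |(k n : ℝ) * Real.log 2 - t * L n| ≤ δ * L n) →
      (∀ᶠ n in (UU : Filter ℕ), ∃ y : ℤ, (x n : ℚ) = (2 : ℚ) ^ k n * y) →
      gm (fun n => (x n : ℚ)) ∈ Sv B0 L (some 0) t := by
    intro x k t hk hx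
    have h1 := isCh_prime (B0 := B0) (hL := hL) 0 k (t / Real.log 2) (by
      intro δ hδ
      filter_upwards [hk (δ * Real.log 2) (by positivity)] with n hn
      have h3 : (k n : ℝ) - t / Real.log 2 * L n =
          ((k n : ℝ) * Real.log 2 - t * L n) / Real.log 2 := by field_simp
      rw [h3, abs_div, abs_of_pos hlog2, div_le_iff₀ hlog2]
      linarith)
    have h2 := h1.mem (some 0)
    have h3 : lv B0 (some 0) (Pi.single 0 (t / Real.log 2) : Fin 1 → ℝ) = t := by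
      change (Pi.single 0 (t / Real.log 2) : Fin 1 → ℝ) 0 * Real.log (B0.P 0) = t
      rw [Pi.single_eq_same, hP2]
      push_cast
      field_simp
    rw [h3, hP2] at h2
    choose! y hy using fun n (h : ∃ y : ℤ, (x n : ℚ) = (2 : ℚ) ^ k n * y) => h
    have h4 : gm (fun n => (x n : ℚ)) = gm (fun n => ((2 : ℕ) : ℚ) ^ k n) * gm (fun n => (y n : ℚ)) := by
      rw [gm_mul, gm_eq]
      filter_upwards [hx] with n hn
      rw [hy n hn]
      push_cast
      rfl
    rw [h4]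
    have h5 := (filt_v (B := B0) hL (some 0)).mul_mem h2 (int_fin B0 hL y 0)
    rwa [add_zero] at h5
  have hEv : Eg ∈ Sv B0 L (some 0) θ := by
    refine hsv E (fun n => v n) θ (fun δ hδ => ?_) (Eventually.of_forall fun n => ?_)
    · simpa using hθv δ hδ
    · obtain ⟨y, hy⟩ := hv n
      refine ⟨y, ?_⟩
      rw [hy]
      push_cast
      rw [zpow_natCast]
  have hWv : Wg ∈ Sv B0 L (some 0) (2 * θ) := by
    refine hsv (fun n => O n - σ) (fun n => 2 * (v n : ℤ) - 1) (2 * θ) (fun δ hδ => ?_) ?_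
    · have h3 : ∀ᶠ n in atTop, Real.log 2 ≤ δ / 2 * L n :=
        (hL.const_mul_atTop (by positivity : 0 < δ / 2)).eventually_ge_atTop _
      filter_upwards [hθv (δ / 4) (by positivity), ev_of_atTop h3] with n h4 h5
      have h6 := abs_le.1 h4
      push_cast
      rw [abs_le]
      constructor <;> nlinarith
    · filter_upwards [h2W] with n h3
      obtain ⟨y, hy⟩ := h3
      refine ⟨y, ?_⟩
      have h4 := congrArg (fun t : ℤ => (t : ℚ)) hy
      push_cast at h4 ⊢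
      rw [zpow_sub₀ (by norm_num), zpow_one]
      have h5 : (2 : ℚ) ^ (2 * (v n : ℤ)) = 2 ^ (2 * v n) := by
        rw [← zpow_natCast]
        push_cast
        rfl
      rw [h5]
      linarith
  have hZv : Zg ∈ Sv B0 L (some 0) 1 := by
    have h1 := hT.mem (some 0)
    have h3 : lv B0 (some 0) (Pi.single 0 (1 / Real.log 2) : Fin 1 → ℝ) = 1 := by
      change (Pi.single 0 (1 / Real.log 2) : Fin 1 → ℝ) 0 * Real.log (B0.P 0) = 1
      rw [Pi.single_eq_same, hP2]
      push_cast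
      field_simp
    rwa [h3] at h1
  have hfin1 : ∀ v : Fin 1, v = 0 := fun v => Subsingleton.elim _ _
  -- the real place
  set κ : ℝ := 1 / 2 - θ + 2 * ε with hκ
  have hηg : algebraMap ℝ HR lam * rho Og + algebraMap ℝ HR mu * rho Eg ∈ SR L (-(1 - κ)) := by
    rw [hOg, hEg, rho_gm, rho_gm, cst_eq, cst_eq, gr_mul, gr_mul, gr_add, mem_SR]
    intro δ hδ
    have h3 : ∀ᶠ n in atTop, Real.log (2 * C) ≤ δ / 2 * L n :=
      (hL.const_mul_atTop (by positivity : 0 < δ / 2)).eventually_ge_atTop _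
    filter_upwards [hθv (δ / 2) (by positivity), ev_of_atTop h3, hev1] with n h4 h5 h6
    have h7 := abs_le.1 h4
    push_cast
    refine (hsmall n).trans ?_
    have h8 : (2 : ℝ) ^ v n ≤ Real.exp ((θ + δ / 2) * L n) := by
      rw [← Real.exp_log (by positivity : (0 : ℝ) < 2 ^ v n), Real.log_pow]
      apply Real.exp_le_exp.2
      linarith
    have hFL : (fermatNumber (m n) : ℝ) ≤ Real.exp (2 * L n + Real.log 2) := by
      have h9 := hZ n
      have h10 : (fermatNumber (m n) : ℝ) = (2 ^ e n) ^ 2 + 1 := by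
        rw [← pow_mul, mul_comm (e n) 2]
        exact_mod_cast h9.symm
      rw [h10, Real.exp_add, Real.exp_log (by norm_num), mul_comm 2 (L n), Real.exp_mul, hexp]
      have h11 : (1 : ℝ) ≤ 2 ^ e n := one_le_pow₀ (by norm_num)
      have h12 : ((2 : ℝ) ^ e n) ^ (2 : ℝ) = (2 ^ e n) ^ 2 := by
        rw [← Real.rpow_natCast]
        norm_num
      rw [h12]
      nlinarith
    have h9 : (fermatNumber (m n) : ℝ) ^ (1 / 4 - ε) ≤ 2 * Real.exp ((1 / 2 - 2 * ε) * L n) := by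
      calc (fermatNumber (m n) : ℝ) ^ (1 / 4 - ε) ≤
            Real.exp (2 * L n + Real.log 2) ^ (1 / 4 - ε) :=
            Real.rpow_le_rpow (Nat.cast_nonneg _) hFL (by linarith)
        _ = Real.exp ((1 / 2 - 2 * ε) * L n + Real.log 2 * (1 / 4 - ε)) := by
            rw [← Real.exp_mul]
            ring_nf
        _ ≤ Real.exp ((1 / 2 - 2 * ε) * L n + Real.log 2) := by
            apply Real.exp_le_exp.2
            nlinarith
        _ = _ := by
            rw [Real.exp_add, Real.exp_log (by norm_num)]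
            ring
    calc C * (2 ^ v n * (fermatNumber (m n) : ℝ) ^ (1 / 4 - ε)) ≤
          C * (Real.exp ((θ + δ / 2) * L n) * (2 * Real.exp ((1 / 2 - 2 * ε) * L n))) := by
          apply mul_le_mul_of_nonneg_left _ hC.le
          exact mul_le_mul h8 h9 (by positivity) (Real.exp_pos _).le
      _ = Real.exp (Real.log (2 * C)) * (Real.exp ((θ + δ / 2) * L n) *
          Real.exp ((1 / 2 - 2 * ε) * L n)) := by
          rw [Real.exp_log (by positivity)]
          ring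
      _ = Real.exp (Real.log (2 * C) + ((θ + δ / 2) * L n + (1 / 2 - 2 * ε) * L n)) := by
          rw [Real.exp_add, Real.exp_add]
      _ ≤ _ := by
          apply Real.exp_le_exp.2
          rw [hκ]
          nlinarith
  have hξe : algebraMap ℝ HR mu * rho Og - algebraMap ℝ HR (d * lam) * rho Eg + rho Zg =
      gr (fun n => mu * O n - d * lam * E n + 2 ^ e n) := by
    rw [hOg, hEg, hZg, rho_gm, rho_gm, rho_gm, cst_eq, cst_eq, gr_mul, gr_mul, gr_sub, gr_add]
    congr 1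
    funext n
    push_cast
    rfl
  have hξpos : ∀ n, (2 : ℝ) ^ e n ≤ mu * O n - d * lam * E n + 2 ^ e n := fun n => by
    linarith [hsign n]
  have hξ0 : algebraMap ℝ HR mu * rho Og - algebraMap ℝ HR (d * lam) * rho Eg + rho Zg ≠ 0 := by
    rw [hξe, gr_ne_zero]
    refine Eventually.of_forall fun n => ?_
    have h1 : (0 : ℝ) < 2 ^ e n := by positivity
    have := hξpos n
    linarith
  have hξi : (algebraMap ℝ HR mu * rho Og - algebraMap ℝ HR (d * lam) * rho Eg + rho Zg)⁻¹ ∈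
      SR L 1 := by
    rw [hξe, gr_inv, mem_SR]
    intro δ hδ
    filter_upwards [hev1] with n h1
    have h2 : (0 : ℝ) < 2 ^ e n := by positivity
    have h3 := hξpos n
    rw [abs_inv, abs_of_pos (by linarith)]
    calc (mu * O n - d * lam * E n + 2 ^ e n)⁻¹ ≤ ((2 : ℝ) ^ e n)⁻¹ := inv_anti₀ h2 h3
      _ = Real.exp (-L n) := by rw [Real.exp_neg, hexp]
      _ ≤ _ := by
        apply Real.exp_le_exp.2
        nlinarith
  have hξ1 : algebraMap ℝ HR mu * rho Og - algebraMap ℝ HR (d * lam) * rho Eg + rho Zg ∈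
      SR L (-1) := by
    rw [hξe, mem_SR]
    intro δ hδ
    set C1 : ℝ := 2 * |mu| + |(d : ℝ) * lam| + 1 with hC1
    have hC1pos : 0 < C1 := by positivity
    have h3 : ∀ᶠ n in atTop, Real.log C1 ≤ δ * L n :=
      (hL.const_mul_atTop hδ).eventually_ge_atTop _
    filter_upwards [ev_of_atTop h3] with n h4
    have h5 : |(O n : ℝ)| ≤ 2 * 2 ^ e n := by exact_mod_cast hOle n
    have h6 : |(E n : ℝ)| ≤ 2 ^ e n := by exact_mod_cast hEle n
    have h7 : (0 : ℝ) < 2 ^ e n := by positivity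
    calc |mu * O n - d * lam * E n + 2 ^ e n| ≤ |mu * O n - d * lam * E n| + |(2 : ℝ) ^ e n| :=
          abs_add_le _ _
      _ ≤ |mu * O n| + |d * lam * E n| + |(2 : ℝ) ^ e n| := by
          gcongr
          exact abs_sub _ _
      _ = |mu| * |(O n : ℝ)| + |(d : ℝ) * lam| * |(E n : ℝ)| + 2 ^ e n := by
          rw [abs_mul, abs_mul, abs_of_pos h7]
      _ ≤ |mu| * (2 * 2 ^ e n) + |(d : ℝ) * lam| * 2 ^ e n + 2 ^ e n := by
          gcongr
      _ = C1 * 2 ^ e n := by rw [hC1]; ring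
      _ = Real.exp (Real.log C1 + L n) := by
          rw [Real.exp_add, Real.exp_log hC1pos, hexp]
      _ ≤ _ := by
          apply Real.exp_le_exp.2
          nlinarith
  by_cases hno : ∀ R : Polynomial (Polynomial ℤ), R ≠ 0 → evG Zg Wg R ≠ 0
  · exact trans B0 hL hd0 hrelg hσ hOW (fun _ => 1) (fun _ => θ) (θ' := θ) (by simp) (by simp)
      (fun v => by rw [hfin1 v]; exact hEv) (fun v => by rw [hfin1 v]; exact hWv)
      (fun v => by rw [hfin1 v]; exact hZv) (int_sint B0 hL E) (int_sint B0 hL fun n => O n - σ)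
      hT.sint hlam hmu hlm (κ := κ) (by rw [hκ]; linarith) (by rw [hκ]; linarith) hηg hξ1 hξi hξ0
      hno
  · push Not at hno
    obtain ⟨R, hR, hRW⟩ := hno
    exact alg_case hd hm het hem O E O0 E0 hOE hOE0 hZ hO0 hE0 hne σ hR hRW

end Pool.Agent.H556.SQ
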