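import Mathlib
import Pool.Agent.H556.SQ.Main

/-!
# The theorems for `X ^ 2 + Y ^ 2` and `X ^ 2 + 2 Y ^ 2`
-/

set_option autoImplicit false

namespace Pool.Agent.H556.SQ

open Filter Topology
open Nat (fermatNumber)

/-- the odd coordinate of the trivial representation -/
def tO (d m : ℕ) : ℤ := if d = 1 then 1 else 2 ^ 2 ^ (m - 1) - 1

/-- the even coordinate of the trivial representation -/
def tE (d m : ℕ) : ℤ := if d = 1 then 2 ^ 2 ^ (m - 1) else 2 ^ 2 ^ (m - 2)

lemma fermat_eq {m : ℕ} (hm : 2 ≤ m) : (2 : ℤ) ^ (2 * 2 ^ (m - 1)) + 1 = fermatNumber m := by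
  unfold fermatNumber
  push_cast
  have : m = m - 1 + 1 := by omega
  conv_rhs => rw [this, pow_succ]
  rw [mul_comm]

lemma trivial_rep {d m : ℕ} (hd : d = 1 ∨ d = 2) (hm : 2 ≤ m) :
    tO d m ^ 2 + d * tE d m ^ 2 = fermatNumber m := by
  rw [← fermat_eq hm]
  have h1 : (2 : ℤ) ^ (2 * 2 ^ (m - 1)) = (2 ^ 2 ^ (m - 1)) ^ 2 := by
    rw [← pow_mul, mul_comm]
  rw [h1]
  rcases hd with rfl | rfl
  · simp only [tO, tE, if_true]
    push_cast
    ring
  · simp only [tO, tE]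
    rw [if_neg (by norm_num), if_neg (by norm_num)]
    have h2 : (2 : ℤ) ^ 2 ^ (m - 1) = (2 ^ 2 ^ (m - 2)) ^ 2 := by
      rw [← pow_mul]
      congr 1
      have : m - 1 = m - 2 + 1 := by omega
      rw [this, pow_succ]
    rw [h2]
    push_cast
    ring

/-- the statement with the odd coordinate first -/
theorem main_odd {d : ℕ} (hd : d = 1 ∨ d = 2) {lam mu : ℝ} (hlam : IsAlgebraic ℚ lam)
    (hmu : IsAlgebraic ℚ mu) (hlm : lam ≠ 0 ∨ mu ≠ 0) {ε : ℝ} (hε : 0 < ε) :
    ∃ m₀ : ℕ, ∀ m ≥ m₀, ∀ O E : ℤ, Odd O → O ^ 2 + d * E ^ 2 = fermatNumber m →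
      O ^ 2 ≠ tO d m ^ 2 → (d = 1 → E ^ 2 ≠ tO d m ^ 2) → ∀ k : ℕ, (2 : ℤ) ^ k ∣ E →
      2 ^ k * (fermatNumber m : ℝ) ^ (1 / 4 - ε) < |lam * O + mu * E| := by
  classical
  -- reduction to small `ε`
  wlog hε' : ε ≤ 1 / 4 generalizing ε
  · obtain ⟨m₀, h⟩ := this (ε := 1 / 4) (by norm_num) le_rfl
    refine ⟨m₀, fun m hm O E hO hOE h1 h2 k hk => lt_of_le_of_lt ?_ (h m hm O E hO hOE h1 h2 k hk)⟩
    apply mul_le_mul_of_nonneg_left _ (by positivity)
    apply Real.rpow_le_rpow_of_exponent_le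
    · exact_mod_cast (by have := Nat.three_le_fermatNumber m; omega : 1 ≤ fermatNumber m)
    · push Not at hε'
      linarith
  by_contra hcon
  push Not at hcon
  choose m hm O E hodd hOE hne1 hne2 k hk hsmall using fun n : ℕ => hcon (n + 2)
  have hd0 : 0 < d := by rcases hd with rfl | rfl <;> norm_num
  have hm2 : ∀ n, 2 ≤ m n := fun n => le_trans (by omega) (hm n)
  set γ : ℝ := Real.sqrt (mu ^ 2 + d * lam ^ 2) with hγ
  have hpos : 0 < mu ^ 2 + d * lam ^ 2 := by
    have h1 : (0 : ℝ) < d := by exact_mod_cast hd0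
    rcases hlm with h | h
    · have := sq_nonneg mu
      have : 0 < lam ^ 2 := by positivity
      nlinarith
    · have : 0 < mu ^ 2 := by positivity
      have := mul_nonneg h1.le (sq_nonneg lam)
      linarith
  have hγ0 : 0 < γ := Real.sqrt_pos.2 hpos
  have hγ2 : γ ^ 2 = mu ^ 2 + d * lam ^ 2 := Real.sq_sqrt hpos.le
  have hγa : IsAlgebraic ℚ γ := by
    have h1 : IsAlgebraic ℚ (γ ^ 2) := by
      rw [hγ2]
      exact (hmu.pow 2).add ((isAlgebraic_natCast d).mul (hlam.pow 2))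
    exact h1.of_pow (by norm_num)
  have hmt : Tendsto m atTop atTop :=
    tendsto_atTop_mono (fun n => (Nat.le_add_right n 2).trans (hm n)) tendsto_id
  set e : ℕ → ℕ := fun n => 2 ^ (m n - 1) with he
  have het : Tendsto e atTop atTop :=
    (tendsto_pow_atTop_atTop_of_one_lt (by norm_num)).comp
      ((tendsto_sub_atTop_nat 1).comp hmt)
  set s : ℕ → ℤ := fun n => if 0 ≤ mu * O n - d * lam * E n then 1 else -1 with hs
  have hs2 : ∀ n, s n = 1 ∨ s n = -1 := fun n => by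
    rw [hs]
    simp only []
    split_ifs
    · left; rfl
    · right; rfl
  have hss : ∀ n, s n ^ 2 = 1 := fun n => by
    rcases hs2 n with h | h <;> rw [h] <;> norm_num
  refine core (d := d) (m := m) (e := e) hd hmt het (fun n => ?_) (fun n => s n * O n)
    (fun n => s n * E n) (fun n => tO d (m n)) (fun n => tE d (m n)) (fun n => ?_) (fun n => ?_)
    (fun n => ?_) (fun n => trivial_rep hd (hm2 n)) (fun n => fermat_eq (hm2 n)) ?_ ?_ (fun n => ?_)
    (lam := lam / γ) (mu := mu / γ) ?_ ?_ ?_ hε hε' (C := 1 / γ) (by positivity) k (fun n => ?_)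
    (fun n => ?_) (fun n => ?_)
  · exact pow_le_pow_right₀ (by norm_num) (Nat.sub_le _ _)
  · rcases hs2 n with h | h
    · rw [h, one_mul]; exact hodd n
    · rw [h]
      simpa using hodd n
  · apply mul_ne_zero
    · rcases hs2 n with h | h <;> rw [h] <;> norm_num
    · intro h0
      have h1 := hOE n
      rw [h0, ← fermat_eq (hm2 n)] at h1
      have h2 : (2 : ℤ) ^ (2 * 2 ^ (m n - 1)) = (2 ^ 2 ^ (m n - 1)) ^ 2 := by
        rw [← pow_mul, mul_comm]
      rw [h2] at h1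
      set Z : ℤ := 2 ^ 2 ^ (m n - 1) with hZ
      have hZ1 : 1 ≤ Z := one_le_pow₀ (by norm_num)
      have h3 : |O n| ^ 2 = Z ^ 2 + 1 := by
        rw [sq_abs]
        linarith
      have h4 : 0 ≤ |O n| := abs_nonneg _
      have h5 : Z < |O n| := by nlinarith
      nlinarith
  · have h1 := hOE n
    calc (s n * O n) ^ 2 + d * (s n * E n) ^ 2 = s n ^ 2 * (O n ^ 2 + d * E n ^ 2) := by ring
      _ = _ := by rw [hss, h1, one_mul]
  · -- short
    have hZs : Short e (fun n => ((2 : ℚ) ^ (2 ^ (m n - 1)))) :=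
      Short.pow2 _ 1 (fun n => by rw [one_mul])
    rcases hd with rfl | rfl
    · refine (Short.const 1).congr (Eventually.of_forall fun n => ?_)
      simp [tO]
    · refine (hZs.add (Short.const (-1))).congr (Eventually.of_forall fun n => ?_)
      simp only [tO]
      rw [if_neg (by norm_num)]
      push_cast
      ring
  · rcases hd with rfl | rfl
    · have hZs : Short e (fun n => ((2 : ℚ) ^ (2 ^ (m n - 1)))) :=
        Short.pow2 _ 1 (fun n => by rw [one_mul])
      refine hZs.congr (Eventually.of_forall fun n => ?_)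
      simp [tE]
    · have hZs : Short e (fun n => ((2 : ℚ) ^ (2 ^ (m n - 2)))) :=
        Short.pow2 _ 1 (fun n => by
          rw [one_mul]
          exact pow_le_pow_right₀ (by norm_num) (by omega))
      refine hZs.congr (Eventually.of_forall fun n => ?_)
      simp [tE]
  · constructor
    · rw [mul_pow, hss, one_mul]
      exact hne1 n
    · intro h
      rw [mul_pow, hss, one_mul]
      exact hne2 n h
  · exact hlam.mul hγa.inv
  · exact hmu.mul hγa.inv
  · rw [div_pow, div_pow, hγ2]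
    field_simp
  · exact Dvd.dvd.mul_left (hk n) _
  · push_cast
    have h1 : mu / γ * ((s n : ℝ) * O n) - d * (lam / γ) * ((s n : ℝ) * E n) =
        (s n : ℝ) * (mu * O n - d * lam * E n) / γ := by ring
    rw [h1]
    apply div_nonneg _ hγ0.le
    rw [hs]
    simp only []
    split_ifs with h
    · push_cast; linarith
    · push_cast
      push Not at h
      linarith
  · push_cast
    have h1 : lam / γ * ((s n : ℝ) * O n) + mu / γ * ((s n : ℝ) * E n) =
        (s n : ℝ) * ((lam * O n + mu * E n) / γ) := by ring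
    have h2 : |(s n : ℝ)| = 1 := by
      rcases hs2 n with h | h <;> rw [h] <;> norm_num
    rw [h1, abs_mul, h2, one_mul, abs_div, abs_of_pos hγ0, div_eq_mul_one_div, mul_comm]
    exact mul_le_mul_of_nonneg_left (hsmall n) (by positivity)

/-- **sums of two squares** -/
theorem main_one {lam mu : ℝ} (hlam : IsAlgebraic ℚ lam) (hmu : IsAlgebraic ℚ mu)
    (hlm : lam ≠ 0 ∨ mu ≠ 0) {ε : ℝ} (hε : 0 < ε) :
    ∃ m₀ : ℕ, ∀ m ≥ m₀, ∀ X Y : ℤ, X ^ 2 + Y ^ 2 = fermatNumber m → |X| ≠ 1 → |Y| ≠ 1 →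
      ∀ k : ℕ, (2 : ℤ) ^ k ∣ X * Y →
      2 ^ k * (fermatNumber m : ℝ) ^ (1 / 4 - ε) < |lam * X + mu * Y| := by
  obtain ⟨m₁, h1⟩ := main_odd (d := 1) (Or.inl rfl) hlam hmu hlm hε
  obtain ⟨m₂, h2⟩ := main_odd (d := 1) (Or.inl rfl) hmu hlam hlm.symm hε
  refine ⟨max m₁ m₂, fun m hm X Y hXY hX hY k hk => ?_⟩
  have hX2 : X ^ 2 ≠ 1 := fun h => hX
    ((pow_eq_one_iff_of_nonneg (abs_nonneg X) two_ne_zero).1 (by rw [sq_abs]; exact h))
  have hY2 : Y ^ 2 ≠ 1 := fun h => hY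
    ((pow_eq_one_iff_of_nonneg (abs_nonneg Y) two_ne_zero).1 (by rw [sq_abs]; exact h))
  have htO : tO 1 m = 1 := by simp [tO]
  have hodd : Odd (X ^ 2 + Y ^ 2) := by
    rw [hXY]
    exact_mod_cast Nat.odd_fermatNumber m
  have h2k : ∀ T : ℤ, Odd T → IsCoprime ((2 : ℤ) ^ k) T := by
    rintro T ⟨t, rfl⟩
    apply IsCoprime.pow_left
    exact ⟨-t, 1, by ring⟩
  by_cases hXo : Odd X
  · refine h1 m (le_trans (le_max_left _ _) hm) X Y hXo (by push_cast; linarith) ?_ ?_ k ?_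
    · rw [htO]; simpa using hX2
    · intro _; rw [htO]; simpa using hY2
    · exact (h2k X hXo).dvd_of_dvd_mul_left hk
  · have hYo : Odd Y := by
      rw [Int.not_odd_iff_even] at hXo
      rcases Int.even_or_odd Y with h | h
      · exfalso
        have : Even (X ^ 2 + Y ^ 2) := (hXo.pow_of_ne_zero two_ne_zero).add
          (h.pow_of_ne_zero two_ne_zero)
        exact (Int.not_odd_iff_even.2 this) hodd
      · exact h
    have := h2 m (le_trans (le_max_right _ _) hm) Y X hYo (by push_cast; linarith)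
      (by rw [htO]; simpa using hY2) (by intro _; rw [htO]; simpa using hX2) k
      ((h2k Y hYo).dvd_of_dvd_mul_right hk)
    rwa [add_comm (mu * (Y : ℝ))] at this

/-- **the form `X ^ 2 + 2 Y ^ 2`** -/
theorem main_two {lam mu : ℝ} (hlam : IsAlgebraic ℚ lam) (hmu : IsAlgebraic ℚ mu)
    (hlm : lam ≠ 0 ∨ mu ≠ 0) {ε : ℝ} (hε : 0 < ε) :
    ∃ m₀ : ℕ, ∀ m ≥ m₀, ∀ X Y : ℤ, X ^ 2 + 2 * Y ^ 2 = fermatNumber m →
      |Y| ≠ 2 ^ 2 ^ (m - 2) → ∀ k : ℕ, (2 : ℤ) ^ k ∣ X * Y →
      2 ^ k * (fermatNumber m : ℝ) ^ (1 / 4 - ε) < |lam * X + mu * Y| := by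
  obtain ⟨m₁, h1⟩ := main_odd (d := 2) (Or.inr rfl) hlam hmu hlm hε
  refine ⟨max m₁ 2, fun m hm X Y hXY hY k hk => ?_⟩
  have hm2 : 2 ≤ m := le_trans (le_max_right _ _) hm
  have hodd : Odd (X ^ 2 + 2 * Y ^ 2) := by
    rw [hXY]
    exact_mod_cast Nat.odd_fermatNumber m
  have hXo : Odd X := by
    rcases Int.even_or_odd X with h | h
    · exfalso
      have : Even (X ^ 2 + 2 * Y ^ 2) := (h.pow_of_ne_zero two_ne_zero).add (even_two_mul _)
      exact (Int.not_odd_iff_even.2 this) hodd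
    · exact h
  refine h1 m (le_trans (le_max_left _ _) hm) X Y hXo (by push_cast; linarith) ?_
    (by intro h; exact absurd h (by norm_num)) k ?_
  · intro hX
    apply hY
    have h2 := trivial_rep (d := 2) (Or.inr rfl) hm2
    rw [← hX, ← hXY] at h2
    have h3 : Y ^ 2 = tE 2 m ^ 2 := by
      push_cast at h2
      linarith
    have h4 : tE 2 m = 2 ^ 2 ^ (m - 2) := by simp [tE]
    rw [h4] at h3
    have h5 := abs_eq_abs.2 ((sq_eq_sq_iff_eq_or_eq_neg).1 h3)
    rwa [abs_of_pos (by positivity : (0 : ℤ) < 2 ^ 2 ^ (m - 2))] at h5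
  · obtain ⟨t, ht⟩ := hXo
    have h2 : IsCoprime ((2 : ℤ) ^ k) X := by
      apply IsCoprime.pow_left
      exact ⟨-t, 1, by rw [ht]; ring⟩
    exact h2.dvd_of_dvd_mul_left hk

end Pool.Agent.H556.SQ
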